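import Mathlib

/-!
# Decomposition of rational multilinear forms on number fields under the complex embeddings
-/

set_option autoImplicit false

namespace Pool.Agent.H485R3.Hodge

section indep

variable {κ : Type*} [Fintype κ] {F : κ → Type*} [∀ k, Field (F k)] [∀ k, Algebra ℚ (F k)]

/-- the character `x ↦ ∏ σ k (x k)` -/
def chi {Ω : Type*} [Field Ω] [Algebra ℚ Ω] (σ : ∀ k, F k →ₐ[ℚ] Ω) : (∀ k, F k) →* Ω where
  toFun x := ∏ k, σ k (x k)
  map_one' := by simp
  map_mul' := by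
    intro x y
    simp [Finset.prod_mul_distrib]

theorem chi_apply {Ω : Type*} [Field Ω] [Algebra ℚ Ω] (σ : ∀ k, F k →ₐ[ℚ] Ω) (x : ∀ k, F k) :
    chi σ x = ∏ k, σ k (x k) := rfl

theorem chi_injective {Ω : Type*} [Field Ω] [Algebra ℚ Ω] :
    Function.Injective (chi : (∀ k, F k →ₐ[ℚ] Ω) → ((∀ k, F k) →* Ω)) := by
  classical
  intro σ σ' h
  funext k
  ext a
  have h1 := congrArg (fun f : (∀ k, F k) →* Ω => f (Function.update 1 k a)) h
  simp only [chi_apply] at h1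
  have h2 : ∀ ρ : ∀ k, F k →ₐ[ℚ] Ω, ∏ l, ρ l (Function.update (1 : ∀ k, F k) k a l) = ρ k a := by
    intro ρ
    rw [Finset.prod_eq_single k]
    · rw [Function.update_self]
    · intro l _ hl
      rw [Function.update_of_ne hl, Pi.one_apply, map_one]
    · intro hk
      exact absurd (Finset.mem_univ k) hk
  rwa [h2, h2] at h1

variable [∀ k, FiniteDimensional ℚ (F k)] [DecidableEq κ]

/-- Linear independence of the functions `x ↦ ∏ σ k (x k)`. -/
theorem char_indep (c : (∀ k, F k →ₐ[ℚ] ℂ) → ℂ)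
    (h : ∀ x : ∀ k, F k, ∑ σ, c σ * ∏ k, σ k (x k) = 0) (σ : ∀ k, F k →ₐ[ℚ] ℂ) : c σ = 0 := by
  have h1 := (linearIndependent_monoidHom (∀ k, F k) ℂ).comp chi
    (chi_injective (F := F) (Ω := ℂ))
  refine (Fintype.linearIndependent_iff.1 h1) c ?_ σ
  funext x
  rw [Finset.sum_apply, Pi.zero_apply, ← h x]
  rfl

theorem char_unique (c c' : (∀ k, F k →ₐ[ℚ] ℂ) → ℂ)
    (h : ∀ x : ∀ k, F k, ∑ σ, c σ * ∏ k, σ k (x k) = ∑ σ, c' σ * ∏ k, σ k (x k)) : c = c' := by
  funext σ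
  have h1 := char_indep (fun σ => c σ - c' σ) (by
    intro x
    simp only [sub_mul]
    rw [Finset.sum_sub_distrib, h x, sub_self]) σ
  exact sub_eq_zero.1 h1

end indep

section coef

variable {κ : Type*} [Fintype κ] [DecidableEq κ] {F : κ → Type*} [∀ k, Field (F k)]
  [∀ k, Algebra ℚ (F k)] [∀ k, FiniteDimensional ℚ (F k)]

/-- a basis of a finite extension -/
noncomputable def bs (K : Type*) [Field K] [Algebra ℚ K] [FiniteDimensional ℚ K] :
    Module.Basis (Fin (Module.finrank ℚ K)) ℚ K := Module.finBasis ℚ K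

/-- the dual basis for the trace form -/
noncomputable def db (K : Type*) [Field K] [Algebra ℚ K] [FiniteDimensional ℚ K] :
    Module.Basis (Fin (Module.finrank ℚ K)) ℚ K :=
  (Algebra.traceForm ℚ K).dualBasis (traceForm_nondegenerate ℚ K) (bs K)

theorem repr_eq_trace (K : Type*) [Field K] [Algebra ℚ K] [FiniteDimensional ℚ K] (x : K)
    (j : Fin (Module.finrank ℚ K)) : (bs K).repr x j = Algebra.trace ℚ K (db K j * x) := by
  have h1 : ∀ y : K, Algebra.trace ℚ K (db K j * y) = Algebra.traceForm ℚ K (db K j) y :=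
    fun y => rfl
  rw [h1]
  conv_rhs => rw [← (bs K).sum_repr x, map_sum]
  rw [Finset.sum_eq_single j]
  · rw [map_smul, db, LinearMap.BilinForm.apply_dualBasis_left, if_pos rfl, smul_eq_mul, mul_one]
  · intro i _ hi
    rw [map_smul, db, LinearMap.BilinForm.apply_dualBasis_left, if_neg hi, smul_zero]
  · intro hj
    exact absurd (Finset.mem_univ j) hj

variable (φ : MultilinearMap ℚ F ℚ)

/-- the component of a form at a tuple of embeddings -/
noncomputable def coef {Ω : Type*} [Field Ω] [Algebra ℚ Ω] (σ : ∀ k, F k →ₐ[ℚ] Ω) : Ω :=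
  ∑ J : (∀ k, Fin (Module.finrank ℚ (F k))), algebraMap ℚ Ω (φ fun k => bs (F k) (J k)) *
    ∏ k, σ k (db (F k) (J k))

theorem coef_comp {Ω Ω' : Type*} [Field Ω] [Algebra ℚ Ω] [Field Ω'] [Algebra ℚ Ω']
    (g : Ω →ₐ[ℚ] Ω') (σ : ∀ k, F k →ₐ[ℚ] Ω) :
    coef φ (fun k => g.comp (σ k)) = g (coef φ σ) := by
  unfold coef
  rw [map_sum]
  refine Finset.sum_congr rfl fun J _ => ?_
  rw [map_mul, map_prod, AlgHom.commutes]
  rfl

theorem expand (x : ∀ k, F k) : φ x = ∑ J : (∀ k, Fin (Module.finrank ℚ (F k))),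
    (∏ k, (bs (F k)).repr (x k) (J k)) * φ fun k => bs (F k) (J k) := by
  have h1 : x = fun k => ∑ j, (bs (F k)).repr (x k) j • bs (F k) j := by
    funext k
    exact ((bs (F k)).sum_repr (x k)).symm
  conv_lhs => rw [h1, MultilinearMap.map_sum]
  refine Finset.sum_congr rfl fun J _ => ?_
  rw [MultilinearMap.map_smul_univ, smul_eq_mul]

theorem eq_sum_coef (x : ∀ k, F k) : ((φ x : ℚ) : ℂ) =
    ∑ σ : (∀ k, F k →ₐ[ℚ] ℂ), coef φ σ * ∏ k, σ k (x k) := by
  have h1 : ∀ σ : (∀ k, F k →ₐ[ℚ] ℂ), coef φ σ * ∏ k, σ k (x k) =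
      ∑ J : (∀ k, Fin (Module.finrank ℚ (F k))), algebraMap ℚ ℂ (φ fun k => bs (F k) (J k)) *
        ∏ k, σ k (db (F k) (J k) * x k) := by
    intro σ
    unfold coef
    rw [Finset.sum_mul]
    refine Finset.sum_congr rfl fun J _ => ?_
    rw [mul_assoc, ← Finset.prod_mul_distrib]
    congr 1
    exact Finset.prod_congr rfl fun k _ => (map_mul _ _ _).symm
  rw [Finset.sum_congr rfl (fun σ _ => h1 σ), Finset.sum_comm, expand φ x]
  push_cast
  refine Finset.sum_congr rfl fun J _ => ?_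
  rw [← Finset.mul_sum, mul_comm]
  congr 1
  have h2 := Finset.prod_univ_sum (fun k => (Finset.univ : Finset (F k →ₐ[ℚ] ℂ)))
    (fun k (σ : F k →ₐ[ℚ] ℂ) => σ (db (F k) (J k) * x k))
  rw [Fintype.piFinset_univ] at h2
  rw [← h2]
  refine Finset.prod_congr rfl fun k _ => ?_
  rw [← trace_eq_sum_embeddings ℂ, repr_eq_trace]
  rfl

theorem coef_unique (c : (∀ k, F k →ₐ[ℚ] ℂ) → ℂ)
    (h : ∀ x : ∀ k, F k, ((φ x : ℚ) : ℂ) = ∑ σ, c σ * ∏ k, σ k (x k)) : c = coef φ :=
  char_unique c (coef φ) fun x => by rw [← h, ← eq_sum_coef]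

end coef

end Pool.Agent.H485R3.Hodge
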