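import Mathlib
import Pool.Agent.H485R3.Hodge.Char

/-!
# CM Hodge structures of K3 type
-/

set_option autoImplicit false

namespace Pool.Agent.H485R3.Hodge

open NumberField NumberField.IsCMField

section emb

variable {K : Type*} [Field K] [Algebra ℚ K]

/-- The complex conjugate of an embedding. -/
noncomputable def conjEmb (σ : K →ₐ[ℚ] ℂ) : K →ₐ[ℚ] ℂ :=
  ((Complex.conjAe.restrictScalars ℚ : ℂ ≃ₐ[ℚ] ℂ) : ℂ →ₐ[ℚ] ℂ).comp σ

theorem conjEmb_apply (σ : K →ₐ[ℚ] ℂ) (z : K) : conjEmb σ z = starRingEnd ℂ (σ z) := rfl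

theorem conjEmb_conjEmb (σ : K →ₐ[ℚ] ℂ) : conjEmb (conjEmb σ) = σ := by
  ext z
  rw [conjEmb_apply, conjEmb_apply, Complex.conj_conj]

open Classical in
/-- The difference `p - q` for the type `(p, q)` of the `σ`-part of the Hodge structure `K` of K3
type given by `σ₀` and `w`: it is `w` for `σ₀`, `- w` for the conjugate of `σ₀`, and zero for all
other embeddings. -/
noncomputable def hodgeDiff (σ₀ : K →ₐ[ℚ] ℂ) (w : ℤ) (σ : K →ₐ[ℚ] ℂ) : ℤ :=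
  if σ = σ₀ then w else if σ = conjEmb σ₀ then -w else 0

theorem hodgeDiff_conj (σ₀ : K →ₐ[ℚ] ℂ) (h₀ : conjEmb σ₀ ≠ σ₀) (w : ℤ) (σ : K →ₐ[ℚ] ℂ) :
    hodgeDiff σ₀ w (conjEmb σ) = - hodgeDiff σ₀ w σ := by
  have e1 : conjEmb σ = σ₀ ↔ σ = conjEmb σ₀ :=
    ⟨fun h => by rw [← h, conjEmb_conjEmb], fun h => by rw [h, conjEmb_conjEmb]⟩
  have e2 : conjEmb σ = conjEmb σ₀ ↔ σ = σ₀ :=
    ⟨fun h => by rw [← conjEmb_conjEmb σ, h, conjEmb_conjEmb], fun h => by rw [h]⟩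
  by_cases h1 : σ = σ₀
  · rw [hodgeDiff, if_neg (fun h => h₀ (by rw [← h1]; exact h.trans h1.symm)), if_pos (e2.2 h1),
      hodgeDiff, if_pos h1]
  · by_cases h2 : σ = conjEmb σ₀
    · rw [hodgeDiff, if_pos (e1.2 h2), hodgeDiff, if_neg h1, if_pos h2, neg_neg]
    · rw [hodgeDiff, if_neg (fun h => h2 (e1.1 h)), if_neg (fun h => h1 (e2.1 h)), hodgeDiff,
        if_neg h1, if_neg h2, neg_zero]

end emb

theorem conjEmb_eq {K : Type*} [Field K] [NumberField K] [IsCMField K] (σ : K →ₐ[ℚ] ℂ) (z : K) :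
    conjEmb σ z = σ (complexConj K z) :=
  (complexEmbedding_complexConj K σ.toRingHom z).symm

theorem conjEmb_ne {K : Type*} [Field K] [NumberField K] [IsCMField K] (σ : K →ₐ[ℚ] ℂ) :
    conjEmb σ ≠ σ := by
  intro h
  apply complexConj_ne_one K
  ext z
  apply σ.toRingHom.injective
  change σ (complexConj K z) = σ z
  rw [← conjEmb_eq, h]

section hodge

variable {I : Type*} {E : I → Type*} [∀ i, Field (E i)] [∀ i, NumberField (E i)]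
  (σ₀ : ∀ i, E i →ₐ[ℚ] ℂ) (w : I → ℤ)

/-- A rational multilinear form on `∏ E (t k)` is a Hodge class if its complexification is a
combination of the forms `x ↦ ∏ σ k (x k)` of type `(p, p)`. -/
def IsHodge {n : ℕ} (t : Fin n → I) (φ : MultilinearMap ℚ (fun k => E (t k)) ℚ) : Prop :=
  ∃ c : (∀ k, E (t k) →ₐ[ℚ] ℂ) → ℂ, (∀ x, ((φ x : ℚ) : ℂ) = ∑ σ, c σ * ∏ k, σ k (x k)) ∧
    ∀ σ, c σ ≠ 0 → ∑ k, hodgeDiff (σ₀ (t k)) (w (t k)) (σ k) = 0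

/-- The same for bilinear forms on `E i × E j`. -/
def IsHodgePairing (i j : I) (B : E i →ₗ[ℚ] E j →ₗ[ℚ] ℚ) : Prop :=
  ∃ c : (E i →ₐ[ℚ] ℂ) → (E j →ₐ[ℚ] ℂ) → ℂ,
    (∀ x y, ((B x y : ℚ) : ℂ) = ∑ σ, ∑ σ', c σ σ' * (σ x * σ' y)) ∧
    ∀ σ σ', c σ σ' ≠ 0 → hodgeDiff (σ₀ i) (w i) σ + hodgeDiff (σ₀ j) (w j) σ' = 0

/-- A product, over a perfect matching `τ` of the `n` variables that matches only variables of
the same type `t k`, of bilinear forms that are Hodge classes. -/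
def IsProductOfHodgePairings {n : ℕ} (t : Fin n → I)
    (ψ : MultilinearMap ℚ (fun k => E (t k)) ℚ) : Prop :=
  ∃ (τ : Equiv.Perm (Fin n)) (B : ∀ k, E (t k) →ₗ[ℚ] E (t (τ k)) →ₗ[ℚ] ℚ),
    (∀ k, τ (τ k) = k) ∧ (∀ k, τ k ≠ k) ∧ (∀ k, t (τ k) = t k) ∧
    (∀ k, IsHodgePairing σ₀ w (t k) (t (τ k)) (B k)) ∧
    ∀ v, ψ v = ∏ k with k < τ k, B k (v k) (v (τ k))

end hodge

end Pool.Agent.H485R3.Hodge
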