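import Mathlib
import Pool.Agent.H485R3.Hodge.Defs
import Pool.Agent.H485R3.Domin
import Pool.Agent.H485R3.Fields
import Pool.Agent.H485R3.SplitNormal

/-!
# The embeddings occurring in a Hodge class are balanced
-/

set_option autoImplicit false

namespace Pool.Agent.H485R3.Hodge

open NumberField NumberField.IsCMField

/-- a finite Galois extension through which all embeddings factor -/
theorem exists_common {I : Type*} [Finite I] (E : I → Type*) [∀ i, Field (E i)]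
    [∀ i, NumberField (E i)] :
    ∃ (L : Type) (_ : Field L) (_ : Algebra ℚ L) (_ : FiniteDimensional ℚ L) (_ : IsGalois ℚ L)
      (ι : L →ₐ[ℚ] ℂ), (∀ i, ∀ σ : E i →ₐ[ℚ] ℂ, ∃ σ' : E i →ₐ[ℚ] L, ι.comp σ' = σ) ∧
      ∀ i, ∀ ρ ρ' : E i →ₐ[ℚ] L, ∃ g : L ≃ₐ[ℚ] L, (g : L →ₐ[ℚ] L).comp ρ = ρ' := by
  cases nonempty_fintype I
  let pb : ∀ i, PowerBasis ℚ (E i) := fun i => Field.powerBasisOfFiniteOfSeparable ℚ (E i)
  let f : I → Polynomial ℚ := fun i => minpoly ℚ (pb i).gen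
  have hint : ∀ i, IsIntegral ℚ (pb i).gen := fun i => (pb i).isIntegral_gen
  have hf0 : ∀ i, f i ≠ 0 := fun i => minpoly.ne_zero (hint i)
  have hirr : ∀ i, Irreducible (f i) := fun i => minpoly.irreducible (hint i)
  obtain ⟨L, iF, iA, iFin, iGal, hsplit⟩ := exists_splitting f hf0
  let ι : L →ₐ[ℚ] ℂ := IsAlgClosed.lift
  refine ⟨L, iF, iA, iFin, iGal, ι, ?_, ?_⟩
  · intro i σ
    have h1 : Polynomial.aeval (σ (pb i).gen) (f i) = 0 := by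
      rw [Polynomial.aeval_algHom_apply, minpoly.aeval, map_zero]
    obtain ⟨x, hx, hxy⟩ := exists_root_lift (hf0 i) (hsplit i) ι _ h1
    refine ⟨(pb i).lift x hx, ?_⟩
    apply (pb i).algHom_ext
    change ι ((pb i).lift x hx (pb i).gen) = _
    rw [(pb i).lift_gen, hxy]
  · intro i ρ ρ'
    have h1 : Polynomial.aeval (ρ (pb i).gen) (f i) = 0 := by
      rw [Polynomial.aeval_algHom_apply, minpoly.aeval, map_zero]
    have h2 : Polynomial.aeval (ρ' (pb i).gen) (f i) = 0 := by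
      rw [Polynomial.aeval_algHom_apply, minpoly.aeval, map_zero]
    obtain ⟨g, hg⟩ := exists_gal_root (hirr i) h1 h2
    exact ⟨g, (pb i).algHom_ext hg⟩

/-- the action of automorphisms on embeddings -/
def act {K L : Type*} [Field K] [Algebra ℚ K] [Field L] [Algebra ℚ L] (g : L ≃ₐ[ℚ] L)
    (τ : K →ₐ[ℚ] L) : K →ₐ[ℚ] L := (g : L →ₐ[ℚ] L).comp τ

theorem act_apply {K L : Type*} [Field K] [Algebra ℚ K] [Field L] [Algebra ℚ L] (g : L ≃ₐ[ℚ] L)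
    (τ : K →ₐ[ℚ] L) (z : K) : act g τ z = g (τ z) := rfl

theorem act_mul {K L : Type*} [Field K] [Algebra ℚ K] [Field L] [Algebra ℚ L] (g h : L ≃ₐ[ℚ] L)
    (τ : K →ₐ[ℚ] L) : act (g * h) τ = act g (act h τ) := rfl

theorem act_inv_act {K L : Type*} [Field K] [Algebra ℚ K] [Field L] [Algebra ℚ L]
    (g : L ≃ₐ[ℚ] L) (τ : K →ₐ[ℚ] L) : act g⁻¹ (act g τ) = τ := by
  rw [← act_mul, inv_mul_cancel]
  rfl

theorem act_act_inv {K L : Type*} [Field K] [Algebra ℚ K] [Field L] [Algebra ℚ L]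
    (g : L ≃ₐ[ℚ] L) (τ : K →ₐ[ℚ] L) : act g (act g⁻¹ τ) = τ := by
  rw [← act_mul, mul_inv_cancel]
  rfl

theorem act_inv_eq {K L : Type*} [Field K] [Algebra ℚ K] [Field L] [Algebra ℚ L]
    (g : L ≃ₐ[ℚ] L) (τ τ' : K →ₐ[ℚ] L) : act g⁻¹ τ = τ' ↔ τ = act g τ' :=
  ⟨fun h => by rw [← h, act_act_inv], fun h => by rw [h, act_inv_act]⟩

theorem balanced {I : Type*} [Finite I] {E : I → Type*} [∀ i, Field (E i)]
    [∀ i, NumberField (E i)] [∀ i, IsCMField (E i)] (σ₀ : ∀ i, E i →ₐ[ℚ] ℂ) (w : I → ℤ)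
    (hw : ∀ i, w i ≠ 0)
    (hreal : ∀ i, ∀ z ∈ (σ₀ i).fieldRange ⊓ ⨆ j ∈ {j | j ≠ i},
      (⨆ σ : E i →ₐ[ℚ] ℂ, σ.fieldRange) ⊓ (σ₀ j).fieldRange, z.im = 0)
    {n : ℕ} (t : Fin n → I) (φ : MultilinearMap ℚ (fun k => E (t k)) ℚ)
    (hφ : ∀ σ : (∀ k, E (t k) →ₐ[ℚ] ℂ), coef φ σ ≠ 0 →
      ∑ k, hodgeDiff (σ₀ (t k)) (w (t k)) (σ k) = 0)
    (σ : ∀ k, E (t k) →ₐ[ℚ] ℂ) (hσ : coef φ σ ≠ 0) (i : I) (ρ : E i →ₐ[ℚ] ℂ) :
    Nat.card {k // (⟨t k, σ k⟩ : Σ i, E i →ₐ[ℚ] ℂ) = ⟨i, ρ⟩} =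
      Nat.card {k // (⟨t k, σ k⟩ : Σ i, E i →ₐ[ℚ] ℂ) = ⟨i, conjEmb ρ⟩} := by
  classical
  cases nonempty_fintype I
  obtain ⟨L, _, _, _, _, ι, hlift, htrans⟩ := exists_common E
  obtain ⟨c, hc⟩ := exists_conj ι
  choose ρ₀ hρ₀ using fun i => hlift i (σ₀ i)
  choose σ' hσ' using fun k => hlift (t k) (σ k)
  have hιinj : ∀ {j : I} {τ τ' : E j →ₐ[ℚ] L}, ι.comp τ = ι.comp τ' → τ = τ' := by
    intro j τ τ' h
    ext z
    apply ι.toRingHom.injective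
    exact congrArg (fun f : E j →ₐ[ℚ] ℂ => f z) h
  -- complex conjugation
  have hcρ : ∀ {j : I} (τ : E j →ₐ[ℚ] L) (z : E j), c (τ z) = τ (complexConj (E j) z) := by
    intro j τ z
    apply ι.toRingHom.injective
    change ι (c (τ z)) = ι (τ (complexConj (E j) z))
    rw [← hc]
    exact conjEmb_eq (ι.comp τ) z
  have hcι : ∀ {j : I} (τ : E j →ₐ[ℚ] L), ι.comp (act c τ) = conjEmb (ι.comp τ) := by
    intro j τ
    ext z
    change ι (c (τ z)) = conjEmb (ι.comp τ) z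
    rw [← hc]
    rfl
  have hcinv : ∀ {j : I} (τ : E j →ₐ[ℚ] L), ι.comp (act c⁻¹ τ) = conjEmb (ι.comp τ) := by
    intro j τ
    have h1 := hcι (act c⁻¹ τ)
    rw [act_act_inv] at h1
    rw [h1, conjEmb_conjEmb]
  let U : ∀ j, (E j →ₐ[ℚ] L) → ℤ := fun j τ => hodgeDiff (σ₀ j) (w j) (ι.comp τ)
  have hU : ∀ j τ, U j τ = if τ = ρ₀ j then w j else if τ = act c (ρ₀ j) then - w j else 0 := by
    intro j τ
    have e1 : ι.comp τ = σ₀ j ↔ τ = ρ₀ j :=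
      ⟨fun h => hιinj (h.trans (hρ₀ j).symm), fun h => by rw [h, hρ₀]⟩
    have e2 : ι.comp τ = conjEmb (σ₀ j) ↔ τ = act c (ρ₀ j) :=
      ⟨fun h => hιinj (by rw [h, hcι, hρ₀]), fun h => by rw [h, hcι, hρ₀]⟩
    simp only [U]
    by_cases h1 : τ = ρ₀ j
    · rw [hodgeDiff, if_pos (e1.2 h1), if_pos h1]
    · by_cases h2 : τ = act c (ρ₀ j)
      · rw [hodgeDiff, if_neg (fun h => h1 (e1.1 h)), if_pos (e2.2 h2), if_neg h1, if_pos h2]
      · rw [hodgeDiff, if_neg (fun h => h1 (e1.1 h)), if_neg (fun h => h2 (e2.1 h)), if_neg h1,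
          if_neg h2]
  let EL : I → IntermediateField ℚ L := fun j => (ρ₀ j).fieldRange
  let N : IntermediateField ℚ L := ⨆ τ : E i →ₐ[ℚ] L, τ.fieldRange
  have hfix : ∀ (j : I) (h : L ≃ₐ[ℚ] L), h ∈ (EL j).fixingSubgroup →
      ∀ τ : E j →ₐ[ℚ] L, U j (act h⁻¹ τ) = U j τ := by
    intro j h hh τ
    have hfix1 : ∀ z, h (ρ₀ j z) = ρ₀ j z := fun z =>
      (IntermediateField.mem_fixingSubgroup_iff _ _).1 hh _ ⟨z, rfl⟩
    have f1 : act h (ρ₀ j) = ρ₀ j := by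
      ext z
      exact hfix1 z
    have f2 : act h (act c (ρ₀ j)) = act c (ρ₀ j) := by
      ext z
      change h (c (ρ₀ j z)) = c (ρ₀ j z)
      rw [hcρ, hfix1]
    have e1 : act h⁻¹ τ = ρ₀ j ↔ τ = ρ₀ j := by rw [act_inv_eq, f1]
    have e2 : act h⁻¹ τ = act c (ρ₀ j) ↔ τ = act c (ρ₀ j) := by rw [act_inv_eq, f2]
    rw [hU, hU]
    simp only [e1, e2]
  have hodd : ∀ (j : I) (τ : E j →ₐ[ℚ] L), U j (act c⁻¹ τ) = - U j τ := by
    intro j τ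
    simp only [U]
    rw [hcinv, hodgeDiff_conj _ (conjEmb_ne _)]
  let ψ : I → (L ≃ₐ[ℚ] L) → ℝ := fun j g => ∑ k with t k = j, ((U (t k) (act g⁻¹ (σ' k)) : ℤ) : ℝ)
  have hcoefL : coef φ σ' ≠ 0 := by
    intro h
    apply hσ
    have h1 : σ = fun k => ι.comp (σ' k) := funext fun k => (hσ' k).symm
    rw [h1, coef_comp, h, map_zero]
  have key := fun g => split_normal EL ψ (by
    intro j g h hh
    refine Finset.sum_congr rfl fun k hk => ?_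
    rw [Finset.mem_filter] at hk
    rw [mul_inv_rev, act_mul, hfix (t k) h (by rw [hk.2]; exact hh)]) c (by
    intro j g
    change ∑ k with t k = j, ((U (t k) (act (g * c)⁻¹ (σ' k)) : ℤ) : ℝ) =
      - ∑ k with t k = j, ((U (t k) (act g⁻¹ (σ' k)) : ℤ) : ℝ)
    rw [← Finset.sum_neg_distrib]
    refine Finset.sum_congr rfl fun k _ => ?_
    rw [mul_inv_rev, act_mul, hodd]
    push_cast
    rfl) (by
    intro g
    change ∑ j, ∑ k with t k = j, ((U (t k) (act g⁻¹ (σ' k)) : ℤ) : ℝ) = 0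
    rw [Finset.sum_fiberwise Finset.univ t (fun k => ((U (t k) (act g⁻¹ (σ' k)) : ℤ) : ℝ))]
    have h1 := hφ (fun k => (ι.comp (g⁻¹ : L ≃ₐ[ℚ] L)).comp (σ' k)) (by
      rw [coef_comp]
      exact (map_ne_zero _).2 hcoefL)
    have h2 : ∑ k, U (t k) (act g⁻¹ (σ' k)) = 0 := h1
    exact_mod_cast h2) i N (by
    intro g z hz
    have h1 : N.map (g : L →ₐ[ℚ] L) ≤ N := by
      simp only [N]
      rw [IntermediateField.map_iSup]
      refine iSup_le fun τ => ?_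
      refine le_trans ?_ (le_iSup _ (act g τ))
      rintro x ⟨y, ⟨z, rfl⟩, rfl⟩
      exact ⟨z, rfl⟩
    exact h1 ⟨z, hz, rfl⟩) (le_iSup (fun τ : E i →ₐ[ℚ] L => τ.fieldRange) (ρ₀ i)) (by
    intro z hz
    have h1 : ι z ∈ (σ₀ i).fieldRange ⊓ ⨆ j ∈ {j | j ≠ i},
        (⨆ σ : E i →ₐ[ℚ] ℂ, σ.fieldRange) ⊓ (σ₀ j).fieldRange := by
      rw [IntermediateField.mem_inf] at hz ⊢
      constructor
      · obtain ⟨y, hy⟩ := hz.1
        refine ⟨y, ?_⟩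
        rw [← hρ₀ i, ← hy]
        rfl
      · have h2 : (⨆ j ∈ {j | j ≠ i}, N ⊓ EL j).map ι ≤ ⨆ j ∈ {j | j ≠ i},
            (⨆ σ : E i →ₐ[ℚ] ℂ, σ.fieldRange) ⊓ (σ₀ j).fieldRange := by
          simp only [IntermediateField.map_iSup]
          refine iSup₂_mono fun j _ => ?_
          rintro x ⟨y, hy, rfl⟩
          have hy' := IntermediateField.mem_inf.1 hy
          rw [IntermediateField.mem_inf]
          constructor
          · have h3 : N.map ι ≤ ⨆ σ : E i →ₐ[ℚ] ℂ, σ.fieldRange := by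
              simp only [N]
              rw [IntermediateField.map_iSup]
              refine iSup_le fun τ => ?_
              refine le_trans ?_ (le_iSup _ (ι.comp τ))
              rintro x ⟨y, ⟨z, rfl⟩, rfl⟩
              exact ⟨z, rfl⟩
            exact h3 ⟨y, hy'.1, rfl⟩
          · obtain ⟨v, hv⟩ := hy'.2
            refine ⟨v, ?_⟩
            rw [← hρ₀ j]
            exact congrArg ι hv
        exact h2 ⟨z, hz.2, rfl⟩
    have h2 := hreal i _ h1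
    apply ι.toRingHom.injective
    change ι (c z) = ι z
    rw [← hc]
    exact Complex.conj_eq_iff_im.2 h2) g
  obtain ⟨ρ', hρ'⟩ := hlift i ρ
  obtain ⟨g, hg⟩ := htrans i (ρ₀ i) ρ'
  have hg' : act g (ρ₀ i) = ρ' := hg
  have h1 : ∑ k with t k = i, ((U (t k) (act g⁻¹ (σ' k)) : ℤ) : ℝ) = 0 := key g
  have h2 : ∀ k, t k = i → U (t k) (act g⁻¹ (σ' k)) =
      if (⟨t k, σ k⟩ : Σ i, E i →ₐ[ℚ] ℂ) = ⟨i, ρ⟩ then w i else
        if (⟨t k, σ k⟩ : Σ i, E i →ₐ[ℚ] ℂ) = ⟨i, conjEmb ρ⟩ then - w i else 0 := by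
    intro k hk
    have gen : ∀ (j : I) (hj : j = i) (τ : E j →ₐ[ℚ] L), U j (act g⁻¹ τ) =
        if (⟨j, ι.comp τ⟩ : Σ i, E i →ₐ[ℚ] ℂ) = ⟨i, ρ⟩ then w i else
          if (⟨j, ι.comp τ⟩ : Σ i, E i →ₐ[ℚ] ℂ) = ⟨i, conjEmb ρ⟩ then - w i else 0 := by
      intro j hj τ
      subst hj
      have e1 : act g⁻¹ τ = ρ₀ j ↔ (⟨j, ι.comp τ⟩ : Σ i, E i →ₐ[ℚ] ℂ) = ⟨j, ρ⟩ := by
        rw [act_inv_eq, hg', Sigma.mk.injEq]
        constructor
        · rintro rfl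
          exact ⟨rfl, heq_of_eq hρ'⟩
        · rintro ⟨_, h⟩
          exact hιinj ((eq_of_heq h).trans hρ'.symm)
      have e2 : act g⁻¹ τ = act c (ρ₀ j) ↔
          (⟨j, ι.comp τ⟩ : Σ i, E i →ₐ[ℚ] ℂ) = ⟨j, conjEmb ρ⟩ := by
        have h3 : act g (act c (ρ₀ j)) = act c ρ' := by
          ext z
          change g (c (ρ₀ j z)) = c (ρ' z)
          rw [hcρ, hcρ, ← hg']
          rfl
        have h4 : ι.comp (act c ρ') = conjEmb ρ := by rw [hcι, hρ']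
        rw [act_inv_eq, h3, Sigma.mk.injEq]
        constructor
        · rintro rfl
          exact ⟨rfl, heq_of_eq h4⟩
        · rintro ⟨_, h⟩
          exact hιinj ((eq_of_heq h).trans h4.symm)
      rw [hU]
      simp only [e1, e2]
    have h3 := gen (t k) hk (σ' k)
    rw [hσ'] at h3
    exact h3
  have hne : ∀ k, (⟨t k, σ k⟩ : Σ i, E i →ₐ[ℚ] ℂ) = ⟨i, ρ⟩ →
      ¬ (⟨t k, σ k⟩ : Σ i, E i →ₐ[ℚ] ℂ) = ⟨i, conjEmb ρ⟩ := by
    intro k h3 h4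
    rw [h3, Sigma.mk.injEq] at h4
    exact conjEmb_ne ρ (eq_of_heq h4.2).symm
  have h5 : ∑ k with t k = i, ((U (t k) (act g⁻¹ (σ' k)) : ℤ) : ℝ) =
      (w i : ℝ) * ((Finset.univ.filter fun k =>
        (⟨t k, σ k⟩ : Σ i, E i →ₐ[ℚ] ℂ) = ⟨i, ρ⟩).card : ℝ) -
      (w i : ℝ) * ((Finset.univ.filter fun k =>
        (⟨t k, σ k⟩ : Σ i, E i →ₐ[ℚ] ℂ) = ⟨i, conjEmb ρ⟩).card : ℝ) := by
    rw [Finset.card_filter, Finset.card_filter]
    push_cast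
    rw [Finset.mul_sum, Finset.mul_sum, ← Finset.sum_sub_distrib, Finset.sum_filter]
    refine Finset.sum_congr rfl fun k _ => ?_
    by_cases hk : t k = i
    · rw [if_pos hk, h2 k hk]
      by_cases h3 : (⟨t k, σ k⟩ : Σ i, E i →ₐ[ℚ] ℂ) = ⟨i, ρ⟩
      · rw [if_pos h3, if_pos h3, if_neg (hne k h3)]
        simp
      · rw [if_neg h3, if_neg h3]
        by_cases h4 : (⟨t k, σ k⟩ : Σ i, E i →ₐ[ℚ] ℂ) = ⟨i, conjEmb ρ⟩
        · rw [if_pos h4, if_pos h4]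
          simp
        · rw [if_neg h4, if_neg h4]
          simp
    · rw [if_neg hk, if_neg (fun h => hk (congrArg Sigma.fst h)),
        if_neg (fun h => hk (congrArg Sigma.fst h))]
      simp
  rw [h5] at h1
  have hwi : (w i : ℝ) ≠ 0 := by exact_mod_cast hw i
  have h6 : ((Finset.univ.filter fun k =>
        (⟨t k, σ k⟩ : Σ i, E i →ₐ[ℚ] ℂ) = ⟨i, ρ⟩).card : ℝ) = ((Finset.univ.filter fun k =>
        (⟨t k, σ k⟩ : Σ i, E i →ₐ[ℚ] ℂ) = ⟨i, conjEmb ρ⟩).card : ℝ) := by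
    have h7 : (w i : ℝ) * (((Finset.univ.filter fun k =>
        (⟨t k, σ k⟩ : Σ i, E i →ₐ[ℚ] ℂ) = ⟨i, ρ⟩).card : ℝ) - ((Finset.univ.filter fun k =>
        (⟨t k, σ k⟩ : Σ i, E i →ₐ[ℚ] ℂ) = ⟨i, conjEmb ρ⟩).card : ℝ)) = 0 := by linarith
    have h8 := (mul_eq_zero.1 h7).resolve_left hwi
    linarith
  rw [Nat.card_eq_fintype_card, Nat.card_eq_fintype_card, Fintype.card_subtype,
    Fintype.card_subtype]
  exact_mod_cast h6

end Pool.Agent.H485R3.Hodge
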