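import Mathlib
import Pool.Agent.H485R3.Hodge.Defs

/-!
# External products of multilinear forms
-/

set_option autoImplicit false

namespace Pool.Agent.H485R3.Hodge

section extProd

variable {κ I : Type*} [Fintype I] [DecidableEq I] {M : κ → Type*}
  [∀ k, AddCommGroup (M k)] [∀ k, Module ℚ (M k)] (G : κ → I)
  (φ : ∀ i, MultilinearMap ℚ (fun k : {k // G k = i} => M k) ℚ)

theorem extProd_update [DecidableEq κ] (v : ∀ k, M k) (l : κ) :
    ∃ Λ : M l →ₗ[ℚ] ℚ, ∀ z, ∏ i, φ i (fun k => Function.update v l z k) = Λ z := by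
  refine ⟨(∏ i ∈ Finset.univ.erase (G l), φ i (fun k => v k)) •
    (φ (G l)).toLinearMap (fun k => v k) ⟨l, rfl⟩, fun z => ?_⟩
  rw [← Finset.mul_prod_erase _ _ (Finset.mem_univ (G l)), LinearMap.smul_apply, smul_eq_mul,
    mul_comm]
  congr 1
  · refine Finset.prod_congr rfl fun i hi => ?_
    congr 1
    funext k
    rw [Function.update_of_ne]
    intro h
    apply Finset.ne_of_mem_erase hi
    rw [← k.2, h]
  · rw [MultilinearMap.toLinearMap_apply]
    congr 1
    funext k
    by_cases hk : k = ⟨l, rfl⟩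
    · subst hk
      rw [Function.update_self, Function.update_self]
    · rw [Function.update_of_ne hk, Function.update_of_ne]
      intro h
      exact hk (Subtype.ext h)

/-- external product -/
def extProd : MultilinearMap ℚ M ℚ where
  toFun v := ∏ i, φ i (fun k => v k)
  map_update_add' := by
    intro _ v l x y
    obtain ⟨Λ, hΛ⟩ := extProd_update G φ v l
    rw [hΛ, hΛ, hΛ, map_add]
  map_update_smul' := by
    intro _ v l c x
    obtain ⟨Λ, hΛ⟩ := extProd_update G φ v l
    rw [hΛ, hΛ, map_smul]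

theorem extProd_apply (v : ∀ k, M k) : extProd G φ v = ∏ i, φ i (fun k => v k) := rfl

end extProd

section defs

variable {J : Type*} {E : J → Type*} [∀ j, Field (E j)] [∀ j, NumberField (E j)]
  (u : ∀ j, (E j →ₐ[ℚ] ℂ) → ℤ)

/-- A rational multilinear form in the variables `x k ∈ E (t k)` is a Hodge class for the types
`u` if its complexification is a combination of the forms `x ↦ ∏ σ k (x k)` with
`∑ u (t k) (σ k) = 0`. -/
def IsHodgeForm {κ : Type} [Fintype κ] [DecidableEq κ] (t : κ → J)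
    (φ : MultilinearMap ℚ (fun k => E (t k)) ℚ) : Prop :=
  ∃ c : (∀ k, E (t k) →ₐ[ℚ] ℂ) → ℂ, (∀ x, ((φ x : ℚ) : ℂ) = ∑ σ, c σ * ∏ k, σ k (x k)) ∧
    ∀ σ, c σ ≠ 0 → ∑ k, u (t k) (σ k) = 0

/-- `ψ` is the external product over `i ∈ I` of Hodge classes `φ i` in the variables `x k` with
`γ (t k) = i`. -/
def IsExternalProductOfHodge {I : Type*} [Fintype I] [DecidableEq I] (γ : J → I) {n : ℕ}
    (t : Fin n → J) (ψ : MultilinearMap ℚ (fun k => E (t k)) ℚ) : Prop :=
  ∃ φ : ∀ i, MultilinearMap ℚ (fun k : {k // γ (t k) = i} => E (t k)) ℚ,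
    (∀ i, IsHodgeForm u (fun k : {k // γ (t k) = i} => t k) (φ i)) ∧
    ∀ v, ψ v = ∏ i, φ i (fun k => v k)

/-- the field generated by the parts with `u ≠ 0` of the pieces `j` with `γ j = i` -/
noncomputable def fieldOf {I : Type*} (γ : J → I) (i : I) : IntermediateField ℚ ℂ :=
  IntermediateField.adjoin ℚ {z | ∃ j, γ j = i ∧ ∃ σ : E j →ₐ[ℚ] ℂ, u j σ ≠ 0 ∧ z ∈ σ.fieldRange}

/-- the field generated by all embeddings of the pieces `j` with `γ j = i` -/
noncomputable def hullOf (E : J → Type*) [∀ j, Field (E j)] [∀ j, NumberField (E j)] {I : Type*} (γ : J → I)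
    (i : I) : IntermediateField ℚ ℂ :=
  IntermediateField.adjoin ℚ {z | ∃ j, γ j = i ∧ ∃ σ : E j →ₐ[ℚ] ℂ, z ∈ σ.fieldRange}

end defs

end Pool.Agent.H485R3.Hodge
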