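import Mathlib
import Pool.Agent.H485R3.Hodge.Ext
import Pool.Agent.H485R3.Hodge.Balance

/-!
# The Kuenneth theorem for Hodge classes of CM Hodge structures
-/

set_option autoImplicit false

namespace Pool.Agent.H485R3.Hodge

open NumberField

theorem hodge_split {I J : Type*} [Fintype I] [DecidableEq I] {E : J → Type*}
    [∀ j, Field (E j)] [∀ j, NumberField (E j)] (u : ∀ j, (E j →ₐ[ℚ] ℂ) → ℤ)
    (hu : ∀ j σ, u j (conjEmb σ) = - u j σ) (γ : J → I)
    (hreal : ∀ i, ∀ z ∈ fieldOf u γ i ⊓ ⨆ l ∈ {l | l ≠ i}, hullOf E γ i ⊓ fieldOf u γ l, z.im = 0)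
    {L : Type*} [Field L] [Algebra ℚ L] [FiniteDimensional ℚ L] [IsGalois ℚ L] (ι : L →ₐ[ℚ] ℂ)
    {n : ℕ} (t : Fin n → J) (σ' : ∀ k, E (t k) →ₐ[ℚ] L)
    (hrel : ∀ g : L ≃ₐ[ℚ] L, ∑ k, u (t k) (ι.comp (act g (σ' k))) = 0)
    (i : I) (g : L ≃ₐ[ℚ] L) :
    ∑ k with γ (t k) = i, u (t k) (ι.comp (act g (σ' k))) = 0 := by
  classical
  obtain ⟨c, hc⟩ := exists_conj ι
  have hcι : ∀ {j : J} (τ : E j →ₐ[ℚ] L), ι.comp (act c τ) = conjEmb (ι.comp τ) := by
    intro j τ
    ext z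
    change ι (c (τ z)) = conjEmb (ι.comp τ) z
    rw [← hc]
    rfl
  have hcinv : ∀ {j : J} (τ : E j →ₐ[ℚ] L), ι.comp (act c⁻¹ τ) = conjEmb (ι.comp τ) := by
    intro j τ
    have h1 := hcι (act c⁻¹ τ)
    rw [act_act_inv] at h1
    rw [h1, conjEmb_conjEmb]
  let U : ∀ j, (E j →ₐ[ℚ] L) → ℤ := fun j τ => u j (ι.comp τ)
  let EL : I → IntermediateField ℚ L := fun i =>
    IntermediateField.adjoin ℚ {z | ∃ j, γ j = i ∧ ∃ τ : E j →ₐ[ℚ] L, U j τ ≠ 0 ∧ z ∈ τ.fieldRange}
  let N : IntermediateField ℚ L :=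
    IntermediateField.adjoin ℚ {z | ∃ j, γ j = i ∧ ∃ τ : E j →ₐ[ℚ] L, z ∈ τ.fieldRange}
  have hfix : ∀ (i : I) (h : L ≃ₐ[ℚ] L), h ∈ (EL i).fixingSubgroup → ∀ j, γ j = i →
      ∀ τ : E j →ₐ[ℚ] L, U j (act h⁻¹ τ) = U j τ := by
    intro i h hh j hj τ
    have hfix1 : ∀ τ : E j →ₐ[ℚ] L, U j τ ≠ 0 → act h τ = τ := by
      intro τ hτ
      ext z
      refine (IntermediateField.mem_fixingSubgroup_iff _ _).1 hh _ ?_
      exact IntermediateField.subset_adjoin _ _ ⟨j, hj, τ, hτ, ⟨z, rfl⟩⟩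
    by_cases h0 : U j τ = 0
    · by_cases h1 : U j (act h⁻¹ τ) = 0
      · rw [h0, h1]
      · have h2 := hfix1 _ h1
        rw [act_act_inv] at h2
        rw [← h2]
    · have h2 := hfix1 _ h0
      have h3 : act h⁻¹ τ = τ := by
        conv_lhs => rw [← h2]
        rw [act_inv_act]
      rw [h3]
  have hodd : ∀ (j : J) (τ : E j →ₐ[ℚ] L), U j (act c⁻¹ τ) = - U j τ := by
    intro j τ
    simp only [U]
    rw [hcinv, hu]
  let ψ : I → (L ≃ₐ[ℚ] L) → ℝ := fun l g =>
    ∑ k with γ (t k) = l, ((U (t k) (act g⁻¹ (σ' k)) : ℤ) : ℝ)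
  have hmapEL : ∀ l, (EL l).map ι ≤ fieldOf u γ l := by
    intro l
    simp only [EL]
    rw [IntermediateField.adjoin_map, IntermediateField.adjoin_le_iff]
    rintro x ⟨y, ⟨j, hj, τ, hτ, ⟨z, rfl⟩⟩, rfl⟩
    exact IntermediateField.subset_adjoin _ _ ⟨j, hj, ι.comp τ, hτ, ⟨z, rfl⟩⟩
  have hmapN : N.map ι ≤ hullOf E γ i := by
    simp only [N]
    rw [IntermediateField.adjoin_map, IntermediateField.adjoin_le_iff]
    rintro x ⟨y, ⟨j, hj, τ, ⟨z, rfl⟩⟩, rfl⟩
    exact IntermediateField.subset_adjoin _ _ ⟨j, hj, ι.comp τ, ⟨z, rfl⟩⟩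
  have key := split_normal EL ψ (by
    intro l g h hh
    refine Finset.sum_congr rfl fun k hk => ?_
    rw [Finset.mem_filter] at hk
    rw [mul_inv_rev, act_mul, hfix l h hh (t k) hk.2]) c (by
    intro l g
    change ∑ k with γ (t k) = l, ((U (t k) (act (g * c)⁻¹ (σ' k)) : ℤ) : ℝ) =
      - ∑ k with γ (t k) = l, ((U (t k) (act g⁻¹ (σ' k)) : ℤ) : ℝ)
    rw [← Finset.sum_neg_distrib]
    refine Finset.sum_congr rfl fun k _ => ?_
    rw [mul_inv_rev, act_mul, hodd]
    push_cast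
    rfl) (by
    intro g
    change ∑ l, ∑ k with γ (t k) = l, ((U (t k) (act g⁻¹ (σ' k)) : ℤ) : ℝ) = 0
    rw [Finset.sum_fiberwise Finset.univ (fun k => γ (t k))
      (fun k => ((U (t k) (act g⁻¹ (σ' k)) : ℤ) : ℝ))]
    have h2 : ∑ k, U (t k) (act g⁻¹ (σ' k)) = 0 := hrel g⁻¹
    exact_mod_cast h2) i N (by
    intro g z hz
    have h1 : N.map (g : L →ₐ[ℚ] L) ≤ N := by
      simp only [N]
      rw [IntermediateField.adjoin_map, IntermediateField.adjoin_le_iff]
      rintro x ⟨y, ⟨j, hj, τ, ⟨z, rfl⟩⟩, rfl⟩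
      exact IntermediateField.subset_adjoin _ _ ⟨j, hj, act g τ, ⟨z, rfl⟩⟩
    exact h1 ⟨z, hz, rfl⟩) (by
    simp only [EL, N]
    apply IntermediateField.adjoin.mono
    rintro x ⟨j, hj, τ, _, hx⟩
    exact ⟨j, hj, τ, hx⟩) (by
    intro z hz
    have h1 : ι z ∈ fieldOf u γ i ⊓ ⨆ l ∈ {l | l ≠ i}, hullOf E γ i ⊓ fieldOf u γ l := by
      rw [IntermediateField.mem_inf] at hz ⊢
      constructor
      · exact hmapEL i ⟨z, hz.1, rfl⟩
      · have h2 : (⨆ l ∈ {l | l ≠ i}, N ⊓ EL l).map ι ≤ ⨆ l ∈ {l | l ≠ i},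
            hullOf E γ i ⊓ fieldOf u γ l := by
          simp only [IntermediateField.map_iSup]
          refine iSup₂_mono fun l _ => ?_
          rintro x ⟨y, hy, rfl⟩
          have hy' := IntermediateField.mem_inf.1 hy
          rw [IntermediateField.mem_inf]
          exact ⟨hmapN ⟨y, hy'.1, rfl⟩, hmapEL l ⟨y, hy'.2, rfl⟩⟩
        exact h2 ⟨z, hz.2, rfl⟩
    have h2 := hreal i _ h1
    apply ι.toRingHom.injective
    change ι (c z) = ι z
    rw [← hc]
    exact Complex.conj_eq_iff_im.2 h2) g⁻¹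
  change ∑ k with γ (t k) = i, ((U (t k) (act g⁻¹⁻¹ (σ' k)) : ℤ) : ℝ) = 0 at key
  rw [inv_inv] at key
  exact_mod_cast key

theorem kunneth_hodge {I J : Type*} [Fintype I] [DecidableEq I] [Finite J] {E : J → Type*}
    [∀ j, Field (E j)] [∀ j, NumberField (E j)] (u : ∀ j, (E j →ₐ[ℚ] ℂ) → ℤ)
    (hu : ∀ j σ, u j (conjEmb σ) = - u j σ) (γ : J → I)
    (hreal : ∀ i, ∀ z ∈ fieldOf u γ i ⊓ ⨆ l ∈ {l | l ≠ i}, hullOf E γ i ⊓ fieldOf u γ l, z.im = 0)
    {n : ℕ} (t : Fin n → J) (φ : MultilinearMap ℚ (fun k => E (t k)) ℚ)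
    (hφ : IsHodgeForm u t φ) :
    φ ∈ Submodule.span ℚ {ψ | IsExternalProductOfHodge u γ t ψ} := by
  classical
  by_contra hnot
  obtain ⟨f, hf, hf0⟩ := Submodule.exists_dual_map_eq_bot_of_notMem hnot inferInstance
  have hfS : ∀ ψ, IsExternalProductOfHodge u γ t ψ → f ψ = 0 := by
    intro ψ hψ
    have h1 : f ψ ∈ (Submodule.span ℚ {ψ | IsExternalProductOfHodge u γ t ψ}).map f :=
      ⟨ψ, Submodule.subset_span hψ, rfl⟩
    rw [hf0] at h1
    exact (Submodule.mem_bot ℚ).1 h1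
  obtain ⟨c, hc1, hc2⟩ := hφ
  have hc : c = coef φ := coef_unique φ c hc1
  rw [hc] at hc1 hc2
  obtain ⟨L, _, _, _, _, ι, hlift, _⟩ := exists_common E
  let δ : (∀ k, Fin (Module.finrank ℚ (E (t k)))) → MultilinearMap ℚ (fun k => E (t k)) ℚ :=
    fun J => (MultilinearMap.mkPiAlgebra ℚ (Fin n) ℚ).compLinearMap
      (fun k => (bs (E (t k))).coord (J k))
  have hδ : ∀ J v, δ J v = ∏ k, (bs (E (t k))).repr (v k) (J k) := by
    intro J v
    change (MultilinearMap.mkPiAlgebra ℚ (Fin n) ℚ) (fun k => (bs (E (t k))).coord (J k) (v k)) = _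
    rw [MultilinearMap.mkPiAlgebra_apply]
    rfl
  have hexp : ∀ ψ : MultilinearMap ℚ (fun k => E (t k)) ℚ,
      ψ = ∑ J, ψ (fun k => bs (E (t k)) (J k)) • δ J := by
    intro ψ
    ext v
    rw [expand ψ v, sum_apply]
    refine Finset.sum_congr rfl fun J _ => ?_
    rw [smul_apply, hδ, smul_eq_mul, mul_comm]
  let fC : ((∀ k, E (t k)) → ℂ) → ℂ := fun Φ =>
    ∑ J, Φ (fun k => bs (E (t k)) (J k)) * ((f (δ J) : ℚ) : ℂ)
  have hfC : ∀ ψ : MultilinearMap ℚ (fun k => E (t k)) ℚ,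
      ((f ψ : ℚ) : ℂ) = fC (fun v => ((ψ v : ℚ) : ℂ)) := by
    intro ψ
    conv_lhs => rw [hexp ψ, map_sum]
    push_cast
    refine Finset.sum_congr rfl fun J _ => ?_
    rw [map_smul, smul_eq_mul]
    push_cast
    rfl
  have hkill : ∀ σ : (∀ k, E (t k) →ₐ[ℚ] ℂ), coef φ σ ≠ 0 → fC (fun v => ∏ k, σ k (v k)) = 0 := by
    intro σ hσ
    choose σ' hσ' using fun k => hlift (t k) (σ k)
    have hcoefL : coef φ σ' ≠ 0 := by
      intro h
      apply hσ
      have h1 : σ = fun k => ι.comp (σ' k) := funext fun k => (hσ' k).symm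
      rw [h1, coef_comp, h, map_zero]
    have hrel : ∀ g : L ≃ₐ[ℚ] L, ∑ k, u (t k) (ι.comp (act g (σ' k))) = 0 := by
      intro g
      exact hc2 (fun k => (ι.comp (g : L →ₐ[ℚ] L)).comp (σ' k)) (by
        rw [coef_comp]
        exact (map_ne_zero _).2 hcoefL)
    have hsplit := hodge_split u hu γ hreal ι t σ' hrel
    have hall : ∀ ρ : (∀ _ : I, L →ₐ[ℚ] ℂ),
        fC (fun v => ∏ i, ∏ k : {k // γ (t k) = i}, ρ i (σ' k (v k))) = 0 := by
      refine char_indep (F := fun _ : I => L) _ ?_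
      intro a
      let φ' : ∀ i, MultilinearMap ℚ (fun k : {k // γ (t k) = i} => E (t k)) ℚ := fun i =>
        ((Algebra.trace ℚ L).comp (LinearMap.mulLeft ℚ (a i))).compMultilinearMap
          ((MultilinearMap.mkPiAlgebra ℚ {k // γ (t k) = i} L).compLinearMap
            (fun k => (σ' k).toLinearMap))
      have hφ'v : ∀ i (x : ∀ k : {k // γ (t k) = i}, E (t k)), ((φ' i x : ℚ) : ℂ) =
          ∑ h : L →ₐ[ℚ] ℂ, h (a i) * ∏ k : {k // γ (t k) = i}, h (σ' k (x k)) := by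
        intro i x
        change ((Algebra.trace ℚ L (a i * (MultilinearMap.mkPiAlgebra ℚ {k // γ (t k) = i} L)
          (fun k => σ' k (x k))) : ℚ) : ℂ) = _
        rw [MultilinearMap.mkPiAlgebra_apply]
        have h1 := trace_eq_sum_embeddings (K := ℚ) (L := L) ℂ
          (x := a i * ∏ k : {k // γ (t k) = i}, σ' k (x k))
        rw [eq_ratCast] at h1
        rw [h1]
        refine Finset.sum_congr rfl fun h _ => ?_
        rw [map_mul, map_prod]
      have hφ'h : ∀ i, IsHodgeForm u (fun k : {k // γ (t k) = i} => t k) (φ' i) := by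
        intro i
        refine ⟨fun ρ => ∑ h : L →ₐ[ℚ] ℂ,
          if ρ = (fun k : {k // γ (t k) = i} => h.comp (σ' k)) then h (a i) else 0, ?_, ?_⟩
        · intro x
          rw [hφ'v]
          simp only [Finset.sum_mul]
          rw [Finset.sum_comm]
          refine Finset.sum_congr rfl fun h _ => ?_
          rw [Finset.sum_eq_single (fun k : {k // γ (t k) = i} => h.comp (σ' k))]
          · rw [if_pos rfl]
            rfl
          · intro ρ _ hρ
            rw [if_neg hρ, zero_mul]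
          · intro hm
            exact absurd (Finset.mem_univ _) hm
        · intro ρ hρ
          beta_reduce at hρ
          obtain ⟨h, _, hh⟩ := Finset.exists_ne_zero_of_sum_ne_zero hρ
          have h1 : ρ = (fun k : {k // γ (t k) = i} => h.comp (σ' k)) := by
            by_contra h2
            rw [if_neg h2] at hh
            exact hh rfl
          obtain ⟨g, hg⟩ := exists_gal ι h
          have h3 : ∀ k : {k // γ (t k) = i}, ρ k = ι.comp (act g (σ' k)) := by
            intro k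
            rw [h1]
            ext z
            exact hg (σ' k z)
          rw [Finset.sum_congr rfl (fun k _ => by rw [h3 k])]
          have h4 := hsplit i g
          rw [Finset.sum_subtype (Finset.univ.filter fun k => γ (t k) = i)
            (p := fun k => γ (t k) = i) (fun k => by simp)] at h4
          exact h4
      have hext := hfS (extProd (fun k => γ (t k)) φ') ⟨φ', hφ'h, fun v => rfl⟩
      have h5 : ((f (extProd (fun k => γ (t k)) φ') : ℚ) : ℂ) = 0 := by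
        rw [hext, Rat.cast_zero]
      rw [hfC] at h5
      have h6 : (fun v : (∀ k, E (t k)) => ((extProd (fun k => γ (t k)) φ' v : ℚ) : ℂ)) = fun v =>
          ∑ ρ : (∀ _ : I, L →ₐ[ℚ] ℂ), (∏ i, ρ i (a i)) *
            ∏ i, ∏ k : {k // γ (t k) = i}, ρ i (σ' k (v k)) := by
        funext v
        rw [extProd_apply]
        push_cast
        have h7 : ∀ i ∈ (Finset.univ : Finset I),
            ((φ' i (fun k : {k // γ (t k) = i} => v k) : ℚ) : ℂ) =
            ∑ h : L →ₐ[ℚ] ℂ, h (a i) * ∏ k : {k // γ (t k) = i}, h (σ' k (v k)) :=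
          fun i _ => hφ'v i (fun k => v k)
        rw [Finset.prod_congr rfl h7, Finset.prod_univ_sum, Fintype.piFinset_univ]
        refine Finset.sum_congr rfl fun ρ _ => ?_
        rw [Finset.prod_mul_distrib]
      rw [h6] at h5
      rw [← h5]
      simp only [fC]
      simp only [Finset.sum_mul, Finset.mul_sum]
      rw [Finset.sum_comm]
      refine Finset.sum_congr rfl fun J _ => Finset.sum_congr rfl fun ρ _ => ?_
      ring
    have h7 := hall (fun _ => ι)
    have h8 : (fun v : (∀ k, E (t k)) => ∏ k, σ k (v k)) =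
        fun v => ∏ i, ∏ k : {k // γ (t k) = i}, ι (σ' k (v k)) := by
      funext v
      rw [← Finset.prod_fiberwise Finset.univ (fun k => γ (t k)) (fun k => σ k (v k))]
      refine Finset.prod_congr rfl fun i _ => ?_
      rw [Finset.prod_subtype (Finset.univ.filter fun k => γ (t k) = i)
        (p := fun k => γ (t k) = i) (fun k => by simp)]
      refine Finset.prod_congr rfl fun k _ => ?_
      rw [← hσ']
      rfl
    rw [h8]
    exact h7
  apply hf
  have h9 : ((f φ : ℚ) : ℂ) = 0 := by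
    rw [hfC, show (fun v => ((φ v : ℚ) : ℂ)) = fun v => ∑ σ, coef φ σ * ∏ k, σ k (v k) from
      funext hc1]
    have h10 : fC (fun v => ∑ σ : (∀ k, E (t k) →ₐ[ℚ] ℂ), coef φ σ * ∏ k, σ k (v k)) =
        ∑ σ : (∀ k, E (t k) →ₐ[ℚ] ℂ), coef φ σ * fC (fun v => ∏ k, σ k (v k)) := by
      simp only [fC]
      simp only [Finset.sum_mul, Finset.mul_sum]
      rw [Finset.sum_comm]
      refine Finset.sum_congr rfl fun J _ => Finset.sum_congr rfl fun ρ _ => ?_
      ring
    rw [h10]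
    refine Finset.sum_eq_zero fun σ _ => ?_
    by_cases h11 : coef φ σ = 0
    · rw [h11, zero_mul]
    · rw [hkill σ h11, mul_zero]
  exact_mod_cast h9

end Pool.Agent.H485R3.Hodge
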