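import Mathlib

/-!
# Common cosets of linearly disjoint subfields
-/

set_option autoImplicit false

namespace Pool.Agent.H485R3.Hodge

theorem common_coset {G I : Type*} [Group G] [Finite G] [Fintype I] (H : I → Subgroup G)
    (h : (⨅ i, H i).index = ∏ i, (H i).index) (a : I → G) : ∃ g : G, ∀ i, (a i)⁻¹ * g ∈ H i := by
  classical
  let f := Subgroup.quotientiInfEmbedding H
  have hcard : Nat.card (G ⧸ ⨅ i, H i) = Nat.card (∀ i, G ⧸ H i) := by
    rw [Nat.card_pi]
    exact h
  have hb : Function.Bijective f := by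
    rw [Nat.bijective_iff_injective_and_card]
    exact ⟨f.injective, hcard⟩
  obtain ⟨q, hq⟩ := hb.2 (fun i => (a i : G ⧸ H i))
  obtain ⟨g, rfl⟩ := QuotientGroup.mk_surjective q
  refine ⟨g, fun i => ?_⟩
  have h1 := congrFun hq i
  exact QuotientGroup.eq.1 (h1.symm : (a i : G ⧸ H i) = (g : G ⧸ H i))

theorem fixing_iSup {L I : Type*} [Field L] [Algebra ℚ L] [FiniteDimensional ℚ L]
    (F : I → IntermediateField ℚ L) :
    (⨆ i, F i : IntermediateField ℚ L).fixingSubgroup = ⨅ i, (F i).fixingSubgroup := by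
  apply le_antisymm
  · exact le_iInf fun i => IntermediateField.fixingSubgroup_antitone (le_iSup F i)
  · rw [← IntermediateField.le_iff_le]
    refine iSup_le fun i => ?_
    rw [IntermediateField.le_iff_le]
    exact iInf_le _ i

theorem common_gal {L I : Type*} [Field L] [Algebra ℚ L] [FiniteDimensional ℚ L] [IsGalois ℚ L]
    [Fintype I] (F : I → IntermediateField ℚ L)
    (h : Module.finrank ℚ (⨆ i, F i : IntermediateField ℚ L) = ∏ i, Module.finrank ℚ (F i))
    (a : I → (L ≃ₐ[ℚ] L)) : ∃ g : L ≃ₐ[ℚ] L, ∀ i, (a i)⁻¹ * g ∈ (F i).fixingSubgroup := by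
  apply common_coset
  rw [IntermediateField.finrank_eq_fixingSubgroup_index, fixing_iSup] at h
  rw [h]
  exact Finset.prod_congr rfl fun i _ => IntermediateField.finrank_eq_fixingSubgroup_index L (F i)

end Pool.Agent.H485R3.Hodge
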