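import Mathlib
import Pool.Agent.H485R3.Hodge.Ext
import Pool.Agent.H485R3.Hodge.Balance

/-!
# Rational multilinear forms and external products
-/

set_option autoImplicit false

namespace Pool.Agent.H485R3.Hodge

open NumberField

section

variable {I J : Type*} [Fintype I] [DecidableEq I] {E : J → Type*}
  [∀ j, Field (E j)] [∀ j, NumberField (E j)] (γ : J → I)
  {L : Type*} [Field L] [Algebra ℚ L] [FiniteDimensional ℚ L] {n : ℕ} (t : Fin n → J)
  (σ' : ∀ k, E (t k) →ₐ[ℚ] L)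

/-- the form `v ↦ Tr (a i * ∏ σ' k (v k))` in the variables of the block `i` -/
noncomputable def traceForm (a : I → L) (i : I) :
    MultilinearMap ℚ (fun k : {k // γ (t k) = i} => E (t k)) ℚ :=
  ((Algebra.trace ℚ L).comp (LinearMap.mulLeft ℚ (a i))).compMultilinearMap
    ((MultilinearMap.mkPiAlgebra ℚ {k // γ (t k) = i} L).compLinearMap
      (fun k => (σ' k).toLinearMap))

omit [Fintype I] in
theorem traceForm_apply (a : I → L) (i : I) (x : ∀ k : {k // γ (t k) = i}, E (t k)) :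
    ((traceForm γ t σ' a i x : ℚ) : ℂ) =
      ∑ h : L →ₐ[ℚ] ℂ, h (a i) * ∏ k : {k // γ (t k) = i}, h (σ' k (x k)) := by
  change ((Algebra.trace ℚ L (a i * (MultilinearMap.mkPiAlgebra ℚ {k // γ (t k) = i} L)
    (fun k => σ' k (x k))) : ℚ) : ℂ) = _
  rw [MultilinearMap.mkPiAlgebra_apply]
  have h1 := trace_eq_sum_embeddings (K := ℚ) (L := L) ℂ
    (x := a i * ∏ k : {k // γ (t k) = i}, σ' k (x k))
  rw [eq_ratCast] at h1
  rw [h1]
  refine Finset.sum_congr rfl fun h _ => ?_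
  rw [map_mul, map_prod]

omit [Fintype I] in
theorem traceForm_coef (a : I → L) (i : I) :
    ∃ c : (∀ k : {k // γ (t k) = i}, E (t k) →ₐ[ℚ] ℂ) → ℂ,
      (∀ x, ((traceForm γ t σ' a i x : ℚ) : ℂ) = ∑ ρ, c ρ * ∏ k, ρ k (x k)) ∧
      ∀ ρ, c ρ ≠ 0 → ∃ h : L →ₐ[ℚ] ℂ, ∀ k : {k // γ (t k) = i}, ρ k = h.comp (σ' k) := by
  classical
  refine ⟨fun ρ => ∑ h : L →ₐ[ℚ] ℂ,
    if ρ = (fun k : {k // γ (t k) = i} => h.comp (σ' k)) then h (a i) else 0, ?_, ?_⟩
  · intro x
    rw [traceForm_apply]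
    simp only [Finset.sum_mul]
    rw [Finset.sum_comm]
    refine Finset.sum_congr rfl fun h _ => ?_
    rw [Finset.sum_eq_single (fun k : {k // γ (t k) = i} => h.comp (σ' k))]
    · rw [if_pos rfl]
      rfl
    · intro ρ _ hρ
      rw [if_neg hρ, zero_mul]
    · intro hm
      exact absurd (Finset.mem_univ _) hm
  · intro ρ hρ
    beta_reduce at hρ
    obtain ⟨h, _, hh⟩ := Finset.exists_ne_zero_of_sum_ne_zero hρ
    have h1 : ρ = (fun k : {k // γ (t k) = i} => h.comp (σ' k)) := by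
      by_contra h2
      rw [if_neg h2] at hh
      exact hh rfl
    exact ⟨h, fun k => congrFun h1 k⟩

end

theorem kunneth_general {I J : Type*} [Fintype I] [DecidableEq I] {E : J → Type*}
    [∀ j, Field (E j)] [∀ j, NumberField (E j)] (γ : J → I)
    {L : Type*} [Field L] [Algebra ℚ L] [FiniteDimensional ℚ L] (ι : L →ₐ[ℚ] ℂ)
    (hlift : ∀ i, ∀ σ : E i →ₐ[ℚ] ℂ, ∃ σ' : E i →ₐ[ℚ] L, ι.comp σ' = σ)
    {n : ℕ} (t : Fin n → J) (φ : MultilinearMap ℚ (fun k => E (t k)) ℚ)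
    (S : Set (MultilinearMap ℚ (fun k => E (t k)) ℚ))
    (hS : ∀ σ' : (∀ k, E (t k) →ₐ[ℚ] L), coef φ (fun k => ι.comp (σ' k)) ≠ 0 → ∀ a : I → L,
      extProd (fun k => γ (t k)) (traceForm γ t σ' a) ∈ S) :
    φ ∈ Submodule.span ℚ S := by
  classical
  by_contra hnot
  obtain ⟨f, hf, hf0⟩ := Submodule.exists_dual_map_eq_bot_of_notMem hnot inferInstance
  have hfS : ∀ ψ, ψ ∈ S → f ψ = 0 := by
    intro ψ hψ
    have h1 : f ψ ∈ (Submodule.span ℚ S).map f := ⟨ψ, Submodule.subset_span hψ, rfl⟩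
    rw [hf0] at h1
    exact (Submodule.mem_bot ℚ).1 h1
  have hc1 := eq_sum_coef φ
  let δ : (∀ k, Fin (Module.finrank ℚ (E (t k)))) → MultilinearMap ℚ (fun k => E (t k)) ℚ :=
    fun J => (MultilinearMap.mkPiAlgebra ℚ (Fin n) ℚ).compLinearMap
      (fun k => (bs (E (t k))).coord (J k))
  have hδ : ∀ J v, δ J v = ∏ k, (bs (E (t k))).repr (v k) (J k) := by
    intro J v
    change (MultilinearMap.mkPiAlgebra ℚ (Fin n) ℚ) (fun k => (bs (E (t k))).coord (J k) (v k)) = _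
    rw [MultilinearMap.mkPiAlgebra_apply]
    rfl
  have hexp : ∀ ψ : MultilinearMap ℚ (fun k => E (t k)) ℚ,
      ψ = ∑ J, ψ (fun k => bs (E (t k)) (J k)) • δ J := by
    intro ψ
    ext v
    rw [expand ψ v, sum_apply]
    refine Finset.sum_congr rfl fun J _ => ?_
    rw [smul_apply, hδ, smul_eq_mul, mul_comm]
  let fC : ((∀ k, E (t k)) → ℂ) → ℂ := fun Φ =>
    ∑ J, Φ (fun k => bs (E (t k)) (J k)) * ((f (δ J) : ℚ) : ℂ)
  have hfC : ∀ ψ : MultilinearMap ℚ (fun k => E (t k)) ℚ,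
      ((f ψ : ℚ) : ℂ) = fC (fun v => ((ψ v : ℚ) : ℂ)) := by
    intro ψ
    conv_lhs => rw [hexp ψ, map_sum]
    push_cast
    refine Finset.sum_congr rfl fun J _ => ?_
    rw [map_smul, smul_eq_mul]
    push_cast
    rfl
  have hkill : ∀ σ : (∀ k, E (t k) →ₐ[ℚ] ℂ), coef φ σ ≠ 0 → fC (fun v => ∏ k, σ k (v k)) = 0 := by
    intro σ hσ
    choose σ' hσ' using fun k => hlift (t k) (σ k)
    have hcoefL : coef φ (fun k => ι.comp (σ' k)) ≠ 0 := by
      have h1 : σ = fun k => ι.comp (σ' k) := funext fun k => (hσ' k).symm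
      rwa [← h1]
    have hall : ∀ ρ : (∀ _ : I, L →ₐ[ℚ] ℂ),
        fC (fun v => ∏ i, ∏ k : {k // γ (t k) = i}, ρ i (σ' k (v k))) = 0 := by
      refine char_indep (F := fun _ : I => L) _ ?_
      intro a
      have hext := hfS _ (hS σ' hcoefL a)
      have h5 : ((f (extProd (fun k => γ (t k)) (traceForm γ t σ' a)) : ℚ) : ℂ) = 0 := by
        rw [hext, Rat.cast_zero]
      rw [hfC] at h5
      have h6 : (fun v : (∀ k, E (t k)) => ((extProd (fun k => γ (t k))
          (traceForm γ t σ' a) v : ℚ) : ℂ)) = fun v =>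
          ∑ ρ : (∀ _ : I, L →ₐ[ℚ] ℂ), (∏ i, ρ i (a i)) *
            ∏ i, ∏ k : {k // γ (t k) = i}, ρ i (σ' k (v k)) := by
        funext v
        rw [extProd_apply]
        push_cast
        have h7 : ∀ i ∈ (Finset.univ : Finset I),
            ((traceForm γ t σ' a i (fun k : {k // γ (t k) = i} => v k) : ℚ) : ℂ) =
            ∑ h : L →ₐ[ℚ] ℂ, h (a i) * ∏ k : {k // γ (t k) = i}, h (σ' k (v k)) :=
          fun i _ => traceForm_apply γ t σ' a i (fun k => v k)
        rw [Finset.prod_congr rfl h7, Finset.prod_univ_sum, Fintype.piFinset_univ]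
        refine Finset.sum_congr rfl fun ρ _ => ?_
        rw [Finset.prod_mul_distrib]
      rw [h6] at h5
      rw [← h5]
      simp only [fC]
      simp only [Finset.sum_mul]
      rw [Finset.sum_comm]
      refine Finset.sum_congr rfl fun J _ => Finset.sum_congr rfl fun ρ _ => ?_
      ring
    have h7 := hall (fun _ => ι)
    have h8 : (fun v : (∀ k, E (t k)) => ∏ k, σ k (v k)) =
        fun v => ∏ i, ∏ k : {k // γ (t k) = i}, ι (σ' k (v k)) := by
      funext v
      rw [← Finset.prod_fiberwise Finset.univ (fun k => γ (t k)) (fun k => σ k (v k))]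
      refine Finset.prod_congr rfl fun i _ => ?_
      rw [Finset.prod_subtype (Finset.univ.filter fun k => γ (t k) = i)
        (p := fun k => γ (t k) = i) (fun k => by simp)]
      refine Finset.prod_congr rfl fun k _ => ?_
      rw [← hσ']
      rfl
    rw [h8]
    exact h7
  apply hf
  have h9 : ((f φ : ℚ) : ℂ) = 0 := by
    rw [hfC, show (fun v => ((φ v : ℚ) : ℂ)) = fun v => ∑ σ, coef φ σ * ∏ k, σ k (v k) from
      funext hc1]
    have h10 : fC (fun v => ∑ σ : (∀ k, E (t k) →ₐ[ℚ] ℂ), coef φ σ * ∏ k, σ k (v k)) =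
        ∑ σ : (∀ k, E (t k) →ₐ[ℚ] ℂ), coef φ σ * fC (fun v => ∏ k, σ k (v k)) := by
      simp only [fC]
      simp only [Finset.sum_mul, Finset.mul_sum]
      rw [Finset.sum_comm]
      refine Finset.sum_congr rfl fun J _ => Finset.sum_congr rfl fun ρ _ => ?_
      ring
    rw [h10]
    refine Finset.sum_eq_zero fun σ _ => ?_
    by_cases h11 : coef φ σ = 0
    · rw [h11, zero_mul]
    · rw [hkill σ h11, mul_zero]
  exact_mod_cast h9

end Pool.Agent.H485R3.Hodge
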