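import Mathlib
import Pool.Agent.H485R3.Hodge.KunnethGen
import Pool.Agent.H485R3.Hodge.Coset

/-!
# Hodge substructures of small level of products of CM Hodge structures
-/

set_option autoImplicit false

namespace Pool.Agent.H485R3.Hodge

open NumberField

section defs

variable {J : Type*} {E : J → Type*} [∀ j, Field (E j)] [∀ j, NumberField (E j)]
  (u : ∀ j, (E j →ₐ[ℚ] ℂ) → ℤ)

/-- A rational multilinear form in the variables `x k ∈ E (t k)` has level at most `l` for the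
types `u` if its complexification is a combination of the forms `x ↦ ∏ σ k (x k)` with
`|∑ u (t k) (σ k)| ≤ l`. -/
def HasLevelLE {κ : Type} [Fintype κ] [DecidableEq κ] (t : κ → J) (l : ℕ)
    (φ : MultilinearMap ℚ (fun k => E (t k)) ℚ) : Prop :=
  ∃ c : (∀ k, E (t k) →ₐ[ℚ] ℂ) → ℂ, (∀ x, ((φ x : ℚ) : ℂ) = ∑ σ, c σ * ∏ k, σ k (x k)) ∧
    ∀ σ, c σ ≠ 0 → |∑ k, u (t k) (σ k)| ≤ l

/-- `ψ` is the external product over `i ∈ I` of forms `φ i` in the variables `x k` with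
`γ (t k) = i`, of levels at most `m i`, with `∑ m i ≤ l`. -/
def IsExternalProductOfLevelLE {I : Type*} [Fintype I] [DecidableEq I] (γ : J → I) {n : ℕ}
    (t : Fin n → J) (l : ℕ) (ψ : MultilinearMap ℚ (fun k => E (t k)) ℚ) : Prop :=
  ∃ (m : I → ℕ) (φ : ∀ i, MultilinearMap ℚ (fun k : {k // γ (t k) = i} => E (t k)) ℚ),
    ∑ i, m i ≤ l ∧ (∀ i, HasLevelLE u (fun k : {k // γ (t k) = i} => t k) (m i) (φ i)) ∧
    ∀ v, ψ v = ∏ i, φ i (fun k => v k)

end defs

theorem finrank_map' {F E E' : Type*} [Field F] [Field E] [Field E'] [Algebra F E] [Algebra F E']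
    (K : IntermediateField F E) (f : E →ₐ[F] E') :
    Module.finrank F (K.map f) = Module.finrank F K :=
  (IntermediateField.equivMap K f).symm.toLinearEquiv.finrank_eq

theorem kunneth_level {I J : Type*} [Fintype I] [DecidableEq I] [Finite J] {E : J → Type*}
    [∀ j, Field (E j)] [∀ j, NumberField (E j)] (u : ∀ j, (E j →ₐ[ℚ] ℂ) → ℤ)
    (hu : ∀ j σ, u j (conjEmb σ) = - u j σ) (γ : J → I)
    (hdis : Module.finrank ℚ (⨆ i, fieldOf u γ i : IntermediateField ℚ ℂ) =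
      ∏ i, Module.finrank ℚ (fieldOf u γ i))
    {n : ℕ} (t : Fin n → J) (l : ℕ) (φ : MultilinearMap ℚ (fun k => E (t k)) ℚ)
    (hφ : HasLevelLE u t l φ) :
    φ ∈ Submodule.span ℚ {ψ | IsExternalProductOfLevelLE u γ t l ψ} := by
  classical
  obtain ⟨c0, hc1, hc2⟩ := hφ
  have hc0 : c0 = coef φ := coef_unique φ c0 hc1
  rw [hc0] at hc1 hc2
  obtain ⟨L, _, _, _, _, ι, hlift, _⟩ := exists_common E
  obtain ⟨c, hc⟩ := exists_conj ι
  have hcι : ∀ {j : J} (τ : E j →ₐ[ℚ] L), ι.comp (act c τ) = conjEmb (ι.comp τ) := by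
    intro j τ
    ext z
    change ι (c (τ z)) = conjEmb (ι.comp τ) z
    rw [← hc]
    rfl
  have hcinv : ∀ {j : J} (τ : E j →ₐ[ℚ] L), ι.comp (act c⁻¹ τ) = conjEmb (ι.comp τ) := by
    intro j τ
    have h1 := hcι (act c⁻¹ τ)
    rw [act_act_inv] at h1
    rw [h1, conjEmb_conjEmb]
  let U : ∀ j, (E j →ₐ[ℚ] L) → ℤ := fun j τ => u j (ι.comp τ)
  let EL : I → IntermediateField ℚ L := fun i =>
    IntermediateField.adjoin ℚ {z | ∃ j, γ j = i ∧ ∃ τ : E j →ₐ[ℚ] L, U j τ ≠ 0 ∧ z ∈ τ.fieldRange}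
  have hfix : ∀ (i : I) (h : L ≃ₐ[ℚ] L), h ∈ (EL i).fixingSubgroup → ∀ j, γ j = i →
      ∀ τ : E j →ₐ[ℚ] L, U j (act h⁻¹ τ) = U j τ := by
    intro i h hh j hj τ
    have hfix1 : ∀ τ : E j →ₐ[ℚ] L, U j τ ≠ 0 → act h τ = τ := by
      intro τ hτ
      ext z
      refine (IntermediateField.mem_fixingSubgroup_iff _ _).1 hh _ ?_
      exact IntermediateField.subset_adjoin _ _ ⟨j, hj, τ, hτ, ⟨z, rfl⟩⟩
    by_cases h0 : U j τ = 0
    · by_cases h1 : U j (act h⁻¹ τ) = 0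
      · rw [h0, h1]
      · have h2 := hfix1 _ h1
        rw [act_act_inv] at h2
        rw [← h2]
    · have h2 := hfix1 _ h0
      have h3 : act h⁻¹ τ = τ := by
        conv_lhs => rw [← h2]
        rw [act_inv_act]
      rw [h3]
  have hodd : ∀ (j : J) (τ : E j →ₐ[ℚ] L), U j (act c⁻¹ τ) = - U j τ := by
    intro j τ
    simp only [U]
    rw [hcinv, hu]
  have hmap : ∀ l, (EL l).map ι = fieldOf u γ l := by
    intro l
    apply le_antisymm
    · simp only [EL]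
      rw [IntermediateField.adjoin_map, IntermediateField.adjoin_le_iff]
      rintro x ⟨y, ⟨j, hj, τ, hτ, ⟨z, rfl⟩⟩, rfl⟩
      exact IntermediateField.subset_adjoin _ _ ⟨j, hj, ι.comp τ, hτ, ⟨z, rfl⟩⟩
    · unfold fieldOf
      rw [IntermediateField.adjoin_le_iff]
      rintro x ⟨j, hj, σ, hσ, ⟨z, rfl⟩⟩
      obtain ⟨τ, rfl⟩ := hlift j σ
      exact ⟨τ z, IntermediateField.subset_adjoin _ _ ⟨j, hj, τ, hσ, ⟨z, rfl⟩⟩, rfl⟩
  have hfr : ∀ F : IntermediateField ℚ L, Module.finrank ℚ (F.map ι) = Module.finrank ℚ F :=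
    fun F => finrank_map' F ι
  have hdisL : Module.finrank ℚ (⨆ i, EL i : IntermediateField ℚ L) =
      ∏ i, Module.finrank ℚ (EL i) := by
    rw [← hfr, IntermediateField.map_iSup]
    have h1 : (⨆ i, (EL i).map ι) = ⨆ i, fieldOf u γ i := iSup_congr hmap
    rw [h1, hdis]
    refine Finset.prod_congr rfl fun i _ => ?_
    rw [← hmap, hfr]
  refine kunneth_general γ ι hlift t φ _ ?_
  intro σ' hσ' a
  have hcoefL : coef φ σ' ≠ 0 := by
    intro h
    apply hσ'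
    rw [coef_comp, h, map_zero]
  have hrel : ∀ g : L ≃ₐ[ℚ] L, |∑ k, u (t k) (ι.comp (act g (σ' k)))| ≤ l := by
    intro g
    exact hc2 (fun k => (ι.comp (g : L →ₐ[ℚ] L)).comp (σ' k)) (by
      rw [coef_comp]
      exact (map_ne_zero _).2 hcoefL)
  let Ψ : I → (L ≃ₐ[ℚ] L) → ℤ := fun i g => ∑ k with γ (t k) = i, U (t k) (act g⁻¹ (σ' k))
  have hΨfix : ∀ i g h, h ∈ (EL i).fixingSubgroup → Ψ i (g * h) = Ψ i g := by
    intro i g h hh
    refine Finset.sum_congr rfl fun k hk => ?_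
    rw [Finset.mem_filter] at hk
    rw [mul_inv_rev, act_mul, hfix i h hh (t k) hk.2]
  have hΨodd : ∀ i g, Ψ i (g * c) = - Ψ i g := by
    intro i g
    simp only [Ψ]
    rw [← Finset.sum_neg_distrib]
    refine Finset.sum_congr rfl fun k _ => ?_
    rw [mul_inv_rev, act_mul, hodd]
  let m : I → ℕ := fun i => Finset.univ.sup fun g => (Ψ i g).natAbs
  have hle : ∀ i g, |Ψ i g| ≤ m i := by
    intro i g
    have h1 : (Ψ i g).natAbs ≤ m i :=
      Finset.le_sup (f := fun g => (Ψ i g).natAbs) (Finset.mem_univ g)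
    rw [Int.abs_eq_natAbs]
    exact_mod_cast h1
  have hatt : ∀ i, ∃ g, Ψ i g = m i := by
    intro i
    obtain ⟨g, _, hg⟩ := Finset.exists_mem_eq_sup (Finset.univ : Finset (L ≃ₐ[ℚ] L))
      ⟨1, Finset.mem_univ _⟩ (fun g => (Ψ i g).natAbs)
    have hg' : m i = (Ψ i g).natAbs := hg
    rcases Int.natAbs_eq (Ψ i g) with h | h
    · exact ⟨g, by rw [hg']; exact h⟩
    · refine ⟨g * c, ?_⟩
      rw [hΨodd, hg', h]
      simp
  choose b hb using hatt
  obtain ⟨g, hg⟩ := common_gal EL hdisL b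
  have hsum : ∑ i, m i ≤ l := by
    have h1 : ∀ i, Ψ i g = m i := by
      intro i
      rw [← hb i, ← hΨfix i (b i) _ (hg i), mul_inv_cancel_left]
    have h2 : ∑ i, Ψ i g = ∑ k, u (t k) (ι.comp (act g⁻¹ (σ' k))) :=
      Finset.sum_fiberwise Finset.univ (fun k => γ (t k))
        (fun k => U (t k) (act g⁻¹ (σ' k)))
    have h3 := hrel g⁻¹
    rw [← h2, Finset.sum_congr rfl (fun i _ => h1 i)] at h3
    have h4 := le_trans (le_abs_self _) h3
    exact_mod_cast h4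
  refine ⟨m, traceForm γ t σ' a, hsum, ?_, fun v => rfl⟩
  intro i
  obtain ⟨cc, hcc1, hcc2⟩ := traceForm_coef γ t σ' a i
  refine ⟨cc, hcc1, ?_⟩
  intro ρ hρ
  obtain ⟨h, hh⟩ := hcc2 ρ hρ
  obtain ⟨g', hg'⟩ := exists_gal ι h
  have h3 : ∀ k : {k // γ (t k) = i}, ρ k = ι.comp (act g' (σ' k)) := by
    intro k
    rw [hh]
    ext z
    exact hg' (σ' k z)
  rw [Finset.sum_congr rfl (fun k _ => by rw [h3 k])]
  have h4 := hle i g'⁻¹
  change |∑ k with γ (t k) = i, U (t k) (act g'⁻¹⁻¹ (σ' k))| ≤ _ at h4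
  rw [inv_inv, Finset.sum_subtype (Finset.univ.filter fun k => γ (t k) = i)
    (p := fun k => γ (t k) = i) (fun k => by simp)] at h4
  exact h4

end Pool.Agent.H485R3.Hodge
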