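import Mathlib
import Pool.Agent.H485R3.Hodge.KunnethLevel

/-!
# The converse for structures of K3 type
-/

set_option autoImplicit false

namespace Pool.Agent.H485R3.Hodge

open NumberField NumberField.IsCMField

theorem abs_hodgeDiff_le {K : Type*} [Field K] [Algebra ℚ K] (σ₀ : K →ₐ[ℚ] ℂ) (w : ℕ)
    (σ : K →ₐ[ℚ] ℂ) : |hodgeDiff σ₀ w σ| ≤ w := by
  unfold hodgeDiff
  split_ifs <;> simp

theorem hodgeDiff_eq {K : Type*} [Field K] [Algebra ℚ K] (σ₀ : K →ₐ[ℚ] ℂ) (w : ℕ) (hw : 0 < w)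
    (σ : K →ₐ[ℚ] ℂ) (h : hodgeDiff σ₀ w σ = w) : σ = σ₀ := by
  unfold hodgeDiff at h
  split_ifs at h with h1 h2
  · exact h1
  · omega
  · omega

theorem hodgeDiff_eq_neg {K : Type*} [Field K] [Algebra ℚ K] (σ₀ : K →ₐ[ℚ] ℂ) (w : ℕ)
    (hw : 0 < w) (σ : K →ₐ[ℚ] ℂ) (h : hodgeDiff σ₀ w σ = -w) : σ = conjEmb σ₀ := by
  unfold hodgeDiff at h
  split_ifs at h with h1 h2
  · omega
  · exact h2
  · omega

/-- a nonzero rational linear form has nonzero components everywhere -/
theorem coef_ne_zero {K : Type*} [Field K] [NumberField K]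
    (f : K →ₗ[ℚ] ℚ) (c : (K →ₐ[ℚ] ℂ) → ℂ) (hc : ∀ x, ((f x : ℚ) : ℂ) = ∑ σ, c σ * σ x)
    (σ : K →ₐ[ℚ] ℂ) (h : c σ = 0) : f = 0 := by
  classical
  -- f x = Tr (b x)
  obtain ⟨b, hb⟩ : ∃ b : K, ∀ x, f x = Algebra.trace ℚ K (b * x) := by
    have h1 := (Algebra.traceForm ℚ K).toDual (traceForm_nondegenerate ℚ K)
    refine ⟨((Algebra.traceForm ℚ K).toDual (traceForm_nondegenerate ℚ K)).symm f, fun x => ?_⟩
    have h2 := LinearMap.BilinForm.apply_toDual_symm_apply (B := Algebra.traceForm ℚ K)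
      (hB := traceForm_nondegenerate ℚ K) f x
    exact h2.symm
  have h2 : ∀ x, ∑ τ : K →ₐ[ℚ] ℂ, (c τ - τ b) * τ x = 0 := by
    intro x
    simp only [sub_mul]
    rw [Finset.sum_sub_distrib, ← hc, hb]
    have h3 := trace_eq_sum_embeddings (K := ℚ) (L := K) ℂ (x := b * x)
    rw [eq_ratCast] at h3
    rw [h3]
    simp only [map_mul]
    exact sub_self _
  have hli : LinearIndependent ℂ (fun τ : K →ₐ[ℚ] ℂ => (τ : K → ℂ)) :=
    (linearIndependent_monoidHom K ℂ).comp (fun τ : K →ₐ[ℚ] ℂ => (τ : K →* ℂ)) (by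
      intro τ τ' hh
      ext z
      exact DFunLike.congr_fun hh z)
  have h4 := Fintype.linearIndependent_iff.1 hli (fun τ => c τ - τ b) (by
    funext x
    rw [Finset.sum_apply]
    exact h2 x) σ
  rw [h, zero_sub, neg_eq_zero] at h4
  have h5 : b = 0 := σ.toRingHom.injective (by
    change σ b = σ 0
    rw [h4, map_zero])
  ext x
  rw [hb, h5, zero_mul, map_zero]
  rfl

section tf

variable {κ : Type*} [Fintype κ] [DecidableEq κ] {F : κ → Type*} [∀ k, Field (F k)]
  [∀ k, NumberField (F k)] {L : Type*} [Field L] [Algebra ℚ L] [FiniteDimensional ℚ L]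
  (σ' : ∀ k, F k →ₐ[ℚ] L)

/-- the form `v ↦ Tr (∏ σ' k (v k))` -/
noncomputable def trForm : MultilinearMap ℚ F ℚ :=
  (Algebra.trace ℚ L).compMultilinearMap
    ((MultilinearMap.mkPiAlgebra ℚ κ L).compLinearMap (fun k => (σ' k).toLinearMap))

theorem trForm_eq (x : ∀ k, F k) :
    trForm σ' x = Algebra.trace ℚ L (∏ k, σ' k (x k)) := by
  change Algebra.trace ℚ L ((MultilinearMap.mkPiAlgebra ℚ κ L) (fun k => σ' k (x k))) = _
  rw [MultilinearMap.mkPiAlgebra_apply]

theorem trForm_coef : ∃ c : (∀ k, F k →ₐ[ℚ] ℂ) → ℂ,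
    (∀ x, ((trForm σ' x : ℚ) : ℂ) = ∑ ρ, c ρ * ∏ k, ρ k (x k)) ∧
    ∀ ρ, c ρ ≠ 0 → ∃ h : L →ₐ[ℚ] ℂ, ∀ k, ρ k = h.comp (σ' k) := by
  classical
  refine ⟨fun ρ => ∑ h : L →ₐ[ℚ] ℂ, if ρ = (fun k => h.comp (σ' k)) then 1 else 0, ?_, ?_⟩
  · intro x
    have h1 := trace_eq_sum_embeddings (K := ℚ) (L := L) ℂ (x := ∏ k, σ' k (x k))
    rw [eq_ratCast] at h1
    rw [trForm_eq, h1]
    simp only [Finset.sum_mul]
    rw [Finset.sum_comm]
    refine Finset.sum_congr rfl fun h _ => ?_
    rw [Finset.sum_eq_single (fun k => h.comp (σ' k))]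
    · rw [if_pos rfl, one_mul, map_prod]
      rfl
    · intro ρ _ hρ
      rw [if_neg hρ, zero_mul]
    · intro hm
      exact absurd (Finset.mem_univ _) hm
  · intro ρ hρ
    beta_reduce at hρ
    obtain ⟨h, _, hh⟩ := Finset.exists_ne_zero_of_sum_ne_zero hρ
    have h1 : ρ = (fun k => h.comp (σ' k)) := by
      by_contra h2
      rw [if_neg h2] at hh
      exact hh rfl
    exact ⟨h, fun k => congrFun h1 k⟩

end tf

theorem finrank_of_transitive {I L : Type*} [Field L] [Algebra ℚ L] [FiniteDimensional ℚ L]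
    [IsGalois ℚ L] [Fintype I] {E : I → Type*} [∀ i, Field (E i)] [∀ i, Algebra ℚ (E i)]
    (s : ∀ i, E i →ₐ[ℚ] L)
    (h : ∀ σ' : (∀ i, E i →ₐ[ℚ] L), ∃ g : L ≃ₐ[ℚ] L, ∀ i, act g (σ' i) = s i) :
    Module.finrank ℚ (⨆ i, (s i).fieldRange : IntermediateField ℚ L) =
      ∏ i, Module.finrank ℚ (s i).fieldRange := by
  classical
  let H : I → Subgroup (L ≃ₐ[ℚ] L) := fun i => (s i).fieldRange.fixingSubgroup
  have h1 : ∀ F : IntermediateField ℚ L, Module.finrank ℚ F = F.fixingSubgroup.index := fun F =>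
    IntermediateField.finrank_eq_fixingSubgroup_index L F
  rw [h1, fixing_iSup, Finset.prod_congr rfl (fun i _ => h1 _)]
  change Nat.card _ = _
  have hb : Function.Bijective (Subgroup.quotientiInfEmbedding H) := by
    refine ⟨(Subgroup.quotientiInfEmbedding H).injective, ?_⟩
    intro q
    choose a ha using fun i => QuotientGroup.mk_surjective (q i)
    obtain ⟨g, hg⟩ := h (fun i => act (a i) (s i))
    refine ⟨(g⁻¹ : L ≃ₐ[ℚ] L), ?_⟩
    funext i
    rw [← ha i]
    change ((g⁻¹ : L ≃ₐ[ℚ] L) : (L ≃ₐ[ℚ] L) ⧸ H i) = (a i : (L ≃ₐ[ℚ] L) ⧸ H i)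
    rw [QuotientGroup.eq, inv_inv]
    refine (IntermediateField.mem_fixingSubgroup_iff _ _).2 ?_
    rintro _ ⟨z, rfl⟩
    exact DFunLike.congr_fun (hg i) z
  rw [Nat.card_congr (Equiv.ofBijective _ hb), Nat.card_pi]
  rfl

theorem exists_small_level {I : Type*} [Fintype I] [DecidableEq I] {E : I → Type*}
    [∀ i, Field (E i)] [∀ i, NumberField (E i)] (σ₀ : ∀ i, E i →ₐ[ℚ] ℂ)
    (w : I → ℕ) (hw : ∀ i, 0 < w i)
    (hnd : Module.finrank ℚ (⨆ i, (σ₀ i).fieldRange : IntermediateField ℚ ℂ) ≠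
      ∏ i, Module.finrank ℚ (σ₀ i).fieldRange) :
    ∃ (n : ℕ) (t : Fin n → I) (l : ℕ) (φ : MultilinearMap ℚ (fun k => E (t k)) ℚ),
      HasLevelLE (fun i => hodgeDiff (σ₀ i) (w i)) t l φ ∧
      φ ∉ Submodule.span ℚ
        {ψ | IsExternalProductOfLevelLE (fun i => hodgeDiff (σ₀ i) (w i)) id t l ψ} := by
  classical
  obtain ⟨L, _, _, _, _, ι, hlift, _⟩ := exists_common E
  choose s hs using fun i => hlift i (σ₀ i)
  have hfr : ∀ F : IntermediateField ℚ L, Module.finrank ℚ (F.map ι) = Module.finrank ℚ F :=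
    fun F => finrank_map' F ι
  have hmap : ∀ i, ((s i).fieldRange).map ι = (σ₀ i).fieldRange := by
    intro i
    rw [← hs i]
    ext x
    constructor
    · rintro ⟨y, ⟨z, rfl⟩, rfl⟩
      exact ⟨z, rfl⟩
    · rintro ⟨z, rfl⟩
      exact ⟨s i z, ⟨z, rfl⟩, rfl⟩
  obtain ⟨σ', hσ'⟩ : ∃ σ' : (∀ i, E i →ₐ[ℚ] L), ¬ ∃ g : L ≃ₐ[ℚ] L, ∀ i, act g (σ' i) = s i := by
    by_contra hcon
    push Not at hcon
    apply hnd
    have h1 := finrank_of_transitive s hcon
    have h2 : (⨆ i, (σ₀ i).fieldRange) = (⨆ i, (s i).fieldRange : IntermediateField ℚ L).map ι := by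
      rw [IntermediateField.map_iSup]
      exact (iSup_congr hmap).symm
    rw [h2, hfr, h1]
    refine Finset.prod_congr rfl fun i _ => ?_
    rw [← hmap, hfr]
  obtain ⟨c, hc⟩ := exists_conj ι
  let n := Fintype.card I
  let e : Fin n ≃ I := (Fintype.equivFin I).symm
  have hI : Nonempty I := by
    by_contra hI
    rw [not_nonempty_iff] at hI
    exact hσ' ⟨1, fun i => isEmptyElim i⟩
  have hWpos : 0 < ∑ i, w i := by
    obtain ⟨i⟩ := hI
    exact lt_of_lt_of_le (hw i) (Finset.single_le_sum (fun _ _ => Nat.zero_le _)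
      (Finset.mem_univ i))
  have hWe : ∑ k, (w (e k) : ℤ) = ((∑ i, w i : ℕ) : ℤ) := by
    rw [Equiv.sum_comp e (fun i => (w i : ℤ))]
    push_cast
    rfl
  refine ⟨n, e, ∑ i, w i - 1, trForm (fun k => σ' (e k)), ?_, ?_⟩
  · obtain ⟨cc, hcc1, hcc2⟩ := trForm_coef (fun k => σ' (e k))
    refine ⟨cc, hcc1, ?_⟩
    intro ρ hρ
    obtain ⟨h, hh⟩ := hcc2 ρ hρ
    obtain ⟨g, hg⟩ := exists_gal ι h
    have h3 : ∀ k, ρ k = ι.comp (act g (σ' (e k))) := by
      intro k
      rw [hh]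
      ext z
      exact hg (σ' (e k) z)
    have h4 : ∀ k, |hodgeDiff (σ₀ (e k)) (w (e k)) (ρ k)| ≤ w (e k) := fun k =>
      abs_hodgeDiff_le _ _ _
    have hinj : ∀ {i : I} {τ τ' : E i →ₐ[ℚ] L}, ι.comp τ = ι.comp τ' → τ = τ' := by
      intro i τ τ' hh
      ext z
      exact ι.toRingHom.injective (DFunLike.congr_fun hh z)
    have h5 : ∑ k, hodgeDiff (σ₀ (e k)) (w (e k)) (ρ k) ≠ ((∑ i, w i : ℕ) : ℤ) := by
      intro h6
      rw [← hWe] at h6
      have h7 := (Finset.sum_eq_sum_iff_of_le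
        (fun k _ => le_trans (le_abs_self _) (h4 k))).1 h6
      apply hσ'
      refine ⟨g, fun i => ?_⟩
      have h8 := hodgeDiff_eq _ _ (hw _) _ (h7 (e.symm i) (Finset.mem_univ _))
      rw [h3] at h8
      have h9 : ∀ i', i' = i → ι.comp (act g (σ' i')) = σ₀ i' → act g (σ' i) = s i := by
        rintro i' rfl h10
        rw [← hs] at h10
        exact hinj h10
      exact h9 _ (e.apply_symm_apply i) h8
    have h5' : ∑ k, hodgeDiff (σ₀ (e k)) (w (e k)) (ρ k) ≠ -((∑ i, w i : ℕ) : ℤ) := by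
      intro h6
      rw [← hWe, ← Finset.sum_neg_distrib] at h6
      have h7 := (Finset.sum_eq_sum_iff_of_le
        (fun k _ => (abs_le.1 (h4 k)).1)).1 h6.symm
      apply hσ'
      refine ⟨c * g, fun i => ?_⟩
      have h8 := hodgeDiff_eq_neg _ _ (hw _) _ (h7 (e.symm i) (Finset.mem_univ _)).symm
      rw [h3] at h8
      have h9 : ∀ i', i' = i → ι.comp (act g (σ' i')) = conjEmb (σ₀ i') →
          act (c * g) (σ' i) = s i := by
        rintro i' rfl h10
        apply hinj
        rw [hs, act_mul]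
        have h11 : ι.comp (act c (act g (σ' i'))) = conjEmb (ι.comp (act g (σ' i'))) := by
          ext z
          change ι (c (act g (σ' i') z)) = conjEmb (ι.comp (act g (σ' i'))) z
          rw [← hc]
          rfl
        rw [h11, h10, conjEmb_conjEmb]
      exact h9 _ (e.apply_symm_apply i) h8
    have h6 : |∑ k, hodgeDiff (σ₀ (e k)) (w (e k)) (ρ k)| ≤ ((∑ i, w i : ℕ) : ℤ) := by
      rw [← hWe]
      exact le_trans (Finset.abs_sum_le_sum_abs _ _) (Finset.sum_le_sum fun k _ => h4 k)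
    change |∑ k, hodgeDiff (σ₀ (e k)) (w (e k)) (ρ k)| ≤ ((∑ i, w i - 1 : ℕ) : ℤ)
    rw [abs_le] at h6 ⊢
    omega
  · intro hmem
    have hzero : ∀ ψ, IsExternalProductOfLevelLE (fun i => hodgeDiff (σ₀ i) (w i)) id
        (e : Fin n → I) (∑ i, w i - 1) ψ → ψ = 0 := by
      rintro ψ ⟨m, φ, hm, hφ, hψ⟩
      obtain ⟨i, hi⟩ : ∃ i, m i < w i := by
        by_contra hcon
        push Not at hcon
        have h1 := Finset.sum_le_sum (fun i (_ : i ∈ Finset.univ) => hcon i)
        omega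
      ext v
      rw [hψ v]
      refine Finset.prod_eq_zero (Finset.mem_univ i) ?_
      obtain ⟨cc, hcc1, hcc2⟩ := hφ i
      let k₀ : {k // id (e k) = i} := ⟨e.symm i, e.apply_symm_apply i⟩
      have huniq : ∀ k : {k // id (e k) = i}, k = k₀ := by
        rintro ⟨k, hk⟩
        apply Subtype.ext
        change k = e.symm i
        rw [← hk]
        exact (e.symm_apply_apply k).symm
      have hprod : ∀ (f : {k // id (e k) = i} → ℂ), ∏ k, f k = f k₀ := by
        intro f
        rw [Finset.prod_eq_single k₀]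
        · intro k _ hk
          exact absurd (huniq k) hk
        · intro h
          exact absurd (Finset.mem_univ _) h
      have hsumz : ∀ (f : {k // id (e k) = i} → ℤ), ∑ k, f k = f k₀ := by
        intro f
        rw [Finset.sum_eq_single k₀]
        · intro k _ hk
          exact absurd (huniq k) hk
        · intro h
          exact absurd (Finset.mem_univ _) h
      let f : E (e k₀) →ₗ[ℚ] ℚ := (φ i).toLinearMap (fun k => v k) k₀
      have hf : ∀ x, f x = φ i (Function.update (fun k => v k) k₀ x) := fun x => rfl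
      have hf0 : f = 0 := by
        refine coef_ne_zero f (fun τ => ∑ ρ : (∀ k : {k // id (e k) = i}, E (e k) →ₐ[ℚ] ℂ),
          if ρ k₀ = τ then cc ρ else 0) ?_ (σ₀ (e k₀)) ?_
        · intro x
          rw [hf, hcc1]
          simp only [Finset.sum_mul]
          rw [Finset.sum_comm]
          refine Finset.sum_congr rfl fun ρ _ => ?_
          rw [hprod, Function.update_self, Finset.sum_eq_single (ρ k₀)]
          · rw [if_pos rfl]
          · intro τ _ hτ
            rw [if_neg (Ne.symm hτ), zero_mul]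
          · intro hm
            exact absurd (Finset.mem_univ _) hm
        · refine Finset.sum_eq_zero fun ρ _ => ?_
          split_ifs with hρ
          · by_contra hne
            have h1 := hcc2 ρ hne
            rw [hsumz, hρ] at h1
            change |hodgeDiff (σ₀ (e k₀)) (w (e k₀)) (σ₀ (e k₀))| ≤ (m i : ℤ) at h1
            unfold hodgeDiff at h1
            rw [if_pos rfl] at h1
            have h2 : e k₀ = i := k₀.2
            rw [h2] at h1
            have h3 : (w i : ℤ) ≤ m i := le_trans (le_abs_self _) h1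
            omega
          · rfl
      have h5 : (fun k : {k // id (e k) = i} => v k) =
          Function.update (fun k : {k // id (e k) = i} => v k) k₀ (v k₀) := by
        rw [Function.update_eq_self]
      rw [h5, ← hf, hf0]
      rfl
    have h1 : {ψ | IsExternalProductOfLevelLE (fun i => hodgeDiff (σ₀ i) (w i)) id
        (e : Fin n → I) (∑ i, w i - 1) ψ} ⊆ {0} := fun ψ hψ => hzero ψ hψ
    have h2 := Submodule.span_mono h1 hmem
    rw [Submodule.span_zero_singleton] at h2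
    have h3 : trForm (fun k => σ' (e k)) = 0 := (Submodule.mem_bot ℚ).1 h2
    have h4 : trForm (fun k => σ' (e k)) (fun k => 1) = 0 := by
      rw [h3]
      rfl
    rw [trForm_eq] at h4
    simp only [map_one, Finset.prod_const_one] at h4
    have h6 : Algebra.trace ℚ L 1 = Module.finrank ℚ L := by
      have := Algebra.trace_algebraMap (R := ℚ) (S := L) (1 : ℚ)
      rw [map_one] at this
      rw [this]
      simp
    rw [h6] at h4
    have h7 : (0 : ℕ) < Module.finrank ℚ L := Module.finrank_pos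
    have h8 : Module.finrank ℚ L = 0 := by exact_mod_cast h4
    omega

end Pool.Agent.H485R3.Hodge
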