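import Mathlib
import Pool.Agent.H485R3.Hodge.LevelConv
import Pool.Agent.H485R3.Hodge.KunnethH

/-!
# Exotic Hodge classes on products of two structures of K3 type
-/

set_option autoImplicit false

namespace Pool.Agent.H485R3.Hodge

open NumberField NumberField.IsCMField

section count

variable {K L : Type*} [Field K] [Algebra ℚ K] [Field L] [Algebra ℚ L]

/-- embeddings agreeing with `d ∘ s` on the preimage of `F₀` -/
def Ext (s : K →ₐ[ℚ] L) (F₀ : IntermediateField ℚ L) (d : L ≃ₐ[ℚ] L) : Type _ :=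
  {a : K →ₐ[ℚ] L // ∀ z, s z ∈ F₀ → a z = d (s z)}

noncomputable instance (s : K →ₐ[ℚ] L) (F₀ : IntermediateField ℚ L) (d : L ≃ₐ[ℚ] L)
    [Fintype (K →ₐ[ℚ] L)] : Fintype (Ext s F₀ d) := by
  classical
  unfold Ext
  infer_instance

open Classical in
theorem count [Fintype (K →ₐ[ℚ] L)] (s : K →ₐ[ℚ] L) (F₀ : IntermediateField ℚ L)
    (hF : F₀ ≤ s.fieldRange) (d d' g : L ≃ₐ[ℚ] L) :
    ∑ a : Ext s F₀ d, (if act g a.1 = act d' s then (1 : ℤ) else 0) =
      if ∀ z ∈ F₀, g (d z) = d' z then 1 else 0 := by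
  split_ifs with hP
  · let a₀ : Ext s F₀ d := ⟨act g⁻¹ (act d' s), by
      intro z hz
      have h1 := hP _ hz
      have h2 : g (act g⁻¹ (act d' s) z) = g (d (s z)) := by
        rw [h1]
        have h3 := DFunLike.congr_fun (act_act_inv g (act d' s)) z
        exact h3
      exact g.injective h2⟩
    rw [Finset.sum_eq_single a₀]
    · rw [if_pos]
      exact act_act_inv g (act d' s)
    · intro b _ hb
      rw [if_neg]
      intro h
      apply hb
      apply Subtype.ext
      change b.1 = act g⁻¹ (act d' s)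
      rw [← h, act_inv_act]
    · intro h
      exact absurd (Finset.mem_univ _) h
  · refine Finset.sum_eq_zero fun a _ => ?_
    rw [if_neg]
    intro h
    apply hP
    intro z hz
    obtain ⟨y, hy⟩ := hF hz
    have hy' : s y = z := hy
    have h1 := a.2 y (by rw [hy']; exact hz)
    rw [hy'] at h1
    rw [← h1]
    have h2 := DFunLike.congr_fun h y
    change g (a.1 y) = d' (s y) at h2
    rw [h2, hy']

end count

theorem trForm_coef' {κ : Type*} [Fintype κ] [DecidableEq κ] {F : κ → Type*} [∀ k, Field (F k)]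
    [∀ k, NumberField (F k)] {L : Type*} [Field L] [Algebra ℚ L] [FiniteDimensional ℚ L]
    (σ' : ∀ k, F k →ₐ[ℚ] L) (ι : L →ₐ[ℚ] ℂ) : coef (trForm σ') (fun k => ι.comp (σ' k)) ≠ 0 := by
  classical
  have h0 : (fun ρ : (∀ k, F k →ₐ[ℚ] ℂ) =>
      ∑ h : L →ₐ[ℚ] ℂ, if ρ = (fun k => h.comp (σ' k)) then (1 : ℂ) else 0) =
      coef (trForm σ') := by
    apply coef_unique
    intro x
    have h1 := trace_eq_sum_embeddings (K := ℚ) (L := L) ℂ (x := ∏ k, σ' k (x k))
    rw [eq_ratCast] at h1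
    rw [trForm_eq, h1]
    simp only [Finset.sum_mul]
    rw [Finset.sum_comm]
    refine Finset.sum_congr rfl fun h _ => ?_
    rw [Finset.sum_eq_single (fun k => h.comp (σ' k))]
    · rw [if_pos rfl, one_mul, map_prod]
      rfl
    · intro ρ _ hρ
      rw [if_neg hρ, zero_mul]
    · intro hm
      exact absurd (Finset.mem_univ _) hm
  rw [← h0]
  beta_reduce
  rw [Finset.sum_ite, Finset.sum_const_zero, add_zero, Finset.sum_const, nsmul_eq_mul, mul_one]
  rw [Nat.cast_ne_zero, Finset.card_ne_zero]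
  exact ⟨ι, by simp⟩

theorem coef_extProd {I : Type*} [Fintype I] [DecidableEq I] {κ : Type*} [Fintype κ]
    [DecidableEq κ] {F : κ → Type*} [∀ k, Field (F k)] [∀ k, NumberField (F k)] (G : κ → I)
    (ψ : MultilinearMap ℚ F ℚ)
    (φ : ∀ i, MultilinearMap ℚ (fun k : {k // G k = i} => F k) ℚ)
    (hψ : ∀ v, ψ v = ∏ i, φ i (fun k => v k))
    (c : ∀ i, (∀ k : {k // G k = i}, F k →ₐ[ℚ] ℂ) → ℂ)
    (hc : ∀ i x, ((φ i x : ℚ) : ℂ) = ∑ ρ, c i ρ * ∏ k, ρ k (x k)) (σ : ∀ k, F k →ₐ[ℚ] ℂ) :
    coef ψ σ = ∏ i, c i (fun k => σ k) := by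
  classical
  have h1 : (fun σ : (∀ k, F k →ₐ[ℚ] ℂ) => ∏ i, c i (fun k => σ k)) = coef ψ := by
    apply coef_unique
    intro x
    rw [hψ]
    push_cast
    rw [Finset.prod_congr rfl (fun i _ => hc i (fun k => x k)), Finset.prod_univ_sum,
      Fintype.piFinset_univ]
    let e : (∀ k, F k →ₐ[ℚ] ℂ) ≃ (∀ i, ∀ k : {k // G k = i}, F k →ₐ[ℚ] ℂ) :=
      { toFun := fun σ i k => σ k
        invFun := fun ρ k => ρ (G k) ⟨k, rfl⟩
        left_inv := fun σ => rfl
        right_inv := by
          intro ρ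
          funext i k
          obtain ⟨k, rfl⟩ := k
          rfl }
    rw [← Equiv.sum_comp e]
    refine Finset.sum_congr rfl fun σ _ => ?_
    rw [Finset.prod_mul_distrib]
    congr 1
    rw [← Finset.prod_fiberwise Finset.univ G (fun k => σ k (x k))]
    refine Finset.prod_congr rfl fun i _ => ?_
    rw [Finset.prod_subtype (Finset.univ.filter fun k => G k = i)
      (p := fun k => G k = i) (fun k => by simp)]
    rfl
  rw [← h1]

theorem coef_span {κ : Type*} [Fintype κ] [DecidableEq κ] {F : κ → Type*} [∀ k, Field (F k)]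
    [∀ k, NumberField (F k)] (σ : ∀ k, F k →ₐ[ℚ] ℂ) (S : Set (MultilinearMap ℚ F ℚ))
    (hS : ∀ ψ ∈ S, coef ψ σ = 0) (φ : MultilinearMap ℚ F ℚ) (hφ : φ ∈ Submodule.span ℚ S) :
    coef φ σ = 0 := by
  induction hφ using Submodule.span_induction with
  | mem x h => exact hS x h
  | zero =>
    unfold coef
    refine Finset.sum_eq_zero fun J _ => ?_
    rw [zero_apply, map_zero, zero_mul]
  | add x y _ _ hx hy =>
    have h1 : coef (x + y) σ = coef x σ + coef y σ := by
      unfold coef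
      rw [← Finset.sum_add_distrib]
      refine Finset.sum_congr rfl fun J _ => ?_
      rw [add_apply, map_add, add_mul]
    rw [h1, hx, hy, add_zero]
  | smul a x _ hx =>
    have h1 : coef (a • x) σ = (algebraMap ℚ ℂ a) * coef x σ := by
      unfold coef
      rw [Finset.mul_sum]
      refine Finset.sum_congr rfl fun J _ => ?_
      rw [smul_apply, smul_eq_mul, map_mul, mul_assoc]
    rw [h1, hx, mul_zero]

end Pool.Agent.H485R3.Hodge
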