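import Mathlib
import Pool.Agent.H485R3.Hodge.LevelConv

/-!
# Level and external products: both directions for structures of K3 type
-/

set_option autoImplicit false

namespace Pool.Agent.H485R3.Hodge

open NumberField NumberField.IsCMField

theorem fieldOf_k3 {I : Type*} {E : I → Type*} [∀ i, Field (E i)] [∀ i, NumberField (E i)]
    [∀ i, IsCMField (E i)] (σ₀ : ∀ i, E i →ₐ[ℚ] ℂ) (w : I → ℕ) (hw : ∀ i, 0 < w i) (i : I) :
    fieldOf (fun i => hodgeDiff (σ₀ i) (w i)) id i = (σ₀ i).fieldRange := by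
  apply le_antisymm
  · unfold fieldOf
    rw [IntermediateField.adjoin_le_iff]
    rintro x ⟨j, hj, σ, hσ, ⟨z, rfl⟩⟩
    have hj' : j = i := hj
    subst hj'
    change hodgeDiff (σ₀ j) (w j) σ ≠ 0 at hσ
    unfold hodgeDiff at hσ
    split_ifs at hσ with h1 h2
    · rw [h1]
      exact ⟨z, rfl⟩
    · rw [h2]
      change conjEmb (σ₀ j) z ∈ _
      rw [conjEmb_eq]
      exact ⟨_, rfl⟩
    · exact absurd rfl hσ
  · rintro x ⟨z, rfl⟩
    refine IntermediateField.subset_adjoin _ _ ⟨i, rfl, σ₀ i, ?_, ⟨z, rfl⟩⟩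
    change hodgeDiff (σ₀ i) (w i) (σ₀ i) ≠ 0
    unfold hodgeDiff
    rw [if_pos rfl]
    have := hw i
    omega

theorem k3_levels {I : Type*} [Fintype I] [DecidableEq I] {E : I → Type*} [∀ i, Field (E i)]
    [∀ i, NumberField (E i)] [∀ i, IsCMField (E i)] (σ₀ : ∀ i, E i →ₐ[ℚ] ℂ) (w : I → ℕ)
    (hw : ∀ i, 0 < w i) :
    Module.finrank ℚ (⨆ i, (σ₀ i).fieldRange : IntermediateField ℚ ℂ) =
      ∏ i, Module.finrank ℚ (σ₀ i).fieldRange ↔
    ∀ (n : ℕ) (t : Fin n → I) (l : ℕ) (φ : MultilinearMap ℚ (fun k => E (t k)) ℚ),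
      HasLevelLE (fun i => hodgeDiff (σ₀ i) (w i)) t l φ →
      φ ∈ Submodule.span ℚ
        {ψ | IsExternalProductOfLevelLE (fun i => hodgeDiff (σ₀ i) (w i)) id t l ψ} := by
  constructor
  · intro h n t l φ hφ
    refine kunneth_level (fun i => hodgeDiff (σ₀ i) (w i))
      (fun i σ => hodgeDiff_conj (σ₀ i) (conjEmb_ne _) _ _) id ?_ t l φ hφ
    have h1 := fieldOf_k3 σ₀ w hw
    rw [iSup_congr h1, h]
    exact Finset.prod_congr rfl fun i _ => by rw [h1]
  · intro h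
    by_contra hnd
    obtain ⟨n, t, l, φ, h1, h2⟩ := exists_small_level σ₀ w hw hnd
    exact h2 (h n t l φ h1)

end Pool.Agent.H485R3.Hodge
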