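import Mathlib
import Pool.Agent.H485R3.Hodge.Exotic
import Pool.Agent.H485R3.Hodge.LevelMain

/-!
# Exotic Hodge classes on products of two structures of K3 type: main theorem
-/

set_option autoImplicit false

namespace Pool.Agent.H485R3.Hodge

open NumberField NumberField.IsCMField

theorem hodgeDiff_comp {K L : Type*} [Field K] [NumberField K] [IsCMField K] [Field L]
    [Algebra ℚ L] (ι : L →ₐ[ℚ] ℂ) (c : L ≃ₐ[ℚ] L)
    (hc : ∀ z, starRingEnd ℂ (ι z) = ι (c z)) (s : K →ₐ[ℚ] L) (w : ℤ) (τ : K →ₐ[ℚ] L)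
    [Decidable (τ = act 1 s)] [Decidable (τ = act c s)] :
    hodgeDiff (ι.comp s) w (ι.comp τ) = w * ((if τ = act 1 s then 1 else 0) -
      (if τ = act c s then 1 else 0)) := by
  classical
  have hinj : ∀ {τ τ' : K →ₐ[ℚ] L}, ι.comp τ = ι.comp τ' → τ = τ' := by
    intro τ τ' hh
    ext z
    exact ι.toRingHom.injective (DFunLike.congr_fun hh z)
  have hconj : conjEmb (ι.comp s) = ι.comp (act c s) := by
    ext z
    exact hc (s z)
  have hs1 : act 1 s = s := rfl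
  have hne : act c s ≠ s := by
    intro h
    apply conjEmb_ne (ι.comp s)
    rw [hconj, h]
  unfold hodgeDiff
  rw [hconj]
  by_cases h1 : τ = act 1 s
  · rw [if_pos (by rw [h1, hs1]), if_pos h1, if_neg (by rw [h1]; exact hne.symm)]
    ring
  · rw [if_neg (fun h : ι.comp τ = ι.comp s => h1 (hinj h)), if_neg h1]
    by_cases h2 : τ = act c s
    · rw [if_pos (by rw [h2]), if_pos h2]
      ring
    · rw [if_neg (fun h => h2 (hinj h)), if_neg h2]
      ring

theorem exists_exotic {I : Type*} [Fintype I] [DecidableEq I] {E : I → Type*}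
    [∀ i, Field (E i)] [∀ i, NumberField (E i)] [∀ i, IsCMField (E i)]
    (σ₀ : ∀ i, E i →ₐ[ℚ] ℂ) (w : I → ℕ) (hw : ∀ i, 0 < w i) (i₁ i₂ : I) (hi : i₁ ≠ i₂)
    (z₀ : ℂ) (hz₁ : z₀ ∈ (σ₀ i₁).fieldRange) (hz₂ : z₀ ∈ (σ₀ i₂).fieldRange) (hz : z₀.im ≠ 0) :
    ∃ (n : ℕ) (t : Fin n → I) (φ : MultilinearMap ℚ (fun k => E (t k)) ℚ),
      IsHodgeForm (fun i => hodgeDiff (σ₀ i) (w i)) t φ ∧
      φ ∉ Submodule.span ℚ
        {ψ | IsExternalProductOfHodge (fun i => hodgeDiff (σ₀ i) (w i)) id t ψ} := by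
  classical
  obtain ⟨L, _, _, _, _, ι, hlift, _⟩ := exists_common E
  choose s hs using fun i => hlift i (σ₀ i)
  obtain ⟨c, hc⟩ := exists_conj ι
  -- complex conjugation commutes with everything on the images of the `E i`
  have hcs : ∀ (i : I) (τ : E i →ₐ[ℚ] L) (z : E i), c (τ z) = τ (complexConj (E i) z) := by
    intro i τ z
    apply ι.toRingHom.injective
    change ι (c (τ z)) = (ι.comp τ) (complexConj (E i) z)
    rw [← hc, ← conjEmb_eq]
    rfl
  have hcc : ∀ (i : I) (g : L ≃ₐ[ℚ] L) (z : L), z ∈ (s i).fieldRange → c (g z) = g (c z) := by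
    rintro i g _ ⟨y, rfl⟩
    have h1 := hcs i (act g (s i)) y
    change c (g (s i y)) = g (s i (complexConj (E i) y)) at h1
    change c (g (s i y)) = g (c (s i y))
    rw [h1, hcs]
  have hc2 : ∀ z, c (c z) = z := by
    intro z
    apply ι.toRingHom.injective
    change ι (c (c z)) = ι z
    rw [← hc, ← hc, Complex.conj_conj]
  let F₀ : IntermediateField ℚ L := (s i₁).fieldRange ⊓ (s i₂).fieldRange
  have hF₁ : F₀ ≤ (s i₁).fieldRange := inf_le_left
  have hF₂ : F₀ ≤ (s i₂).fieldRange := inf_le_right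
  have hcF : ∀ z ∈ F₀, c z ∈ F₀ := by
    intro z hz
    obtain ⟨⟨y₁, h1⟩, ⟨y₂, h2⟩⟩ := (IntermediateField.mem_inf.1 hz)
    refine IntermediateField.mem_inf.2 ⟨⟨complexConj (E i₁) y₁, ?_⟩,
      ⟨complexConj (E i₂) y₂, ?_⟩⟩
    · rw [← h1]
      exact (hcs i₁ (s i₁) y₁).symm
    · rw [← h2]
      exact (hcs i₂ (s i₂) y₂).symm
  -- an element of `F₀` moved by complex conjugation
  obtain ⟨x₀, hx₀, hx₀c⟩ : ∃ x₀ ∈ F₀, c x₀ ≠ x₀ := by
    rw [← hs] at hz₁ hz₂
    obtain ⟨y₁, h1⟩ := hz₁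
    obtain ⟨y₂, h2⟩ := hz₂
    have h12 : s i₁ y₁ = s i₂ y₂ := ι.toRingHom.injective (h1.trans h2.symm)
    refine ⟨s i₁ y₁, IntermediateField.mem_inf.2 ⟨⟨y₁, rfl⟩, ⟨y₂, h12.symm⟩⟩, ?_⟩
    intro h
    apply hz
    have h3 : ι (s i₁ y₁) = z₀ := h1
    rw [← Complex.conj_eq_iff_im, ← h3, hc, h]
  let A₁ := Ext (s i₁) F₀ 1
  let A₂ := Ext (s i₂) F₀ c
  let κ := (A₁ × Fin (w i₂)) ⊕ (A₂ × Fin (w i₁))
  let T : κ → I := Sum.elim (fun _ => i₁) (fun _ => i₂)
  let σκ : ∀ k : κ, E (T k) →ₐ[ℚ] L := fun k =>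
    match k with
    | Sum.inl a => a.1.1
    | Sum.inr b => b.1.1
  let n := Fintype.card κ
  let e : Fin n ≃ κ := (Fintype.equivFin κ).symm
  let P : (L ≃ₐ[ℚ] L) → (L ≃ₐ[ℚ] L) → (L ≃ₐ[ℚ] L) → Prop := fun g d d' =>
    ∀ z ∈ F₀, g (d z) = d' z
  let u : ∀ i, (E i →ₐ[ℚ] ℂ) → ℤ := fun i => hodgeDiff (σ₀ i) (w i)
  have hS₁ : ∀ g : L ≃ₐ[ℚ] L, ∑ a : A₁, u i₁ (ι.comp (act g a.1)) =
      w i₁ * ((if P g 1 1 then 1 else 0) - (if P g 1 c then 1 else 0)) := by
    intro g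
    have h1 := count (s i₁) F₀ hF₁ 1 1 g
    have h2 := count (s i₁) F₀ hF₁ 1 c g
    rw [← h1, ← h2, ← Finset.sum_sub_distrib, Finset.mul_sum]
    refine Finset.sum_congr rfl fun a _ => ?_
    simp only [u]
    rw [← hs i₁]
    exact hodgeDiff_comp ι c hc (s i₁) (w i₁) (act g a.1)
  have hS₂ : ∀ g : L ≃ₐ[ℚ] L, ∑ a : A₂, u i₂ (ι.comp (act g a.1)) =
      w i₂ * ((if P g c 1 then 1 else 0) - (if P g c c then 1 else 0)) := by
    intro g
    have h1 := count (s i₂) F₀ hF₂ c 1 g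
    have h2 := count (s i₂) F₀ hF₂ c c g
    rw [← h1, ← h2, ← Finset.sum_sub_distrib, Finset.mul_sum]
    refine Finset.sum_congr rfl fun a _ => ?_
    simp only [u]
    rw [← hs i₂]
    exact hodgeDiff_comp ι c hc (s i₂) (w i₂) (act g a.1)
  have hPcc : ∀ g, P g c c ↔ P g 1 1 := by
    intro g
    constructor
    · intro h z hz
      have h1 := h (c z) (hcF z hz)
      rw [hc2] at h1
      exact h1
    · intro h z hz
      exact h (c z) (hcF z hz)
  have hPc1 : ∀ g, P g c 1 ↔ P g 1 c := by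
    intro g
    constructor
    · intro h z hz
      have h1 : g (c z) = z := h z hz
      change g z = c z
      rw [← hcc i₁ g z (hF₁ hz)] at h1
      have h2 := congrArg c h1
      rw [hc2] at h2
      exact h2
    · intro h z hz
      have h1 : g (c z) = c (c z) := h (c z) (hcF z hz)
      change g (c z) = z
      rw [h1, hc2]
  have hsumκ : ∀ f : κ → ℤ, ∑ k : Fin n, f (e k) =
      ∑ a : A₁, ∑ j : Fin (w i₂), f (Sum.inl (a, j)) +
        ∑ b : A₂, ∑ j : Fin (w i₁), f (Sum.inr (b, j)) := by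
    intro f
    rw [Equiv.sum_comp e f, Fintype.sum_sum_type, Fintype.sum_prod_type, Fintype.sum_prod_type]
  refine ⟨n, fun k => T (e k), trForm (fun k => σκ (e k)), ?_, ?_⟩
  · obtain ⟨cc, hcc1, hcc2⟩ := trForm_coef (fun k => σκ (e k))
    refine ⟨cc, hcc1, ?_⟩
    intro ρ hρ
    obtain ⟨h, hh⟩ := hcc2 ρ hρ
    obtain ⟨g, hg⟩ := exists_gal ι h
    have h3 : ∀ k, ρ k = ι.comp (act g (σκ (e k))) := by
      intro k
      rw [hh]
      ext z
      exact hg (σκ (e k) z)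
    change ∑ k, u (T (e k)) (ρ k) = 0
    rw [Finset.sum_congr rfl (fun k _ => by rw [h3 k]),
      hsumκ (fun x => u (T x) (ι.comp (act g (σκ x))))]
    change ∑ a : A₁, ∑ _j : Fin (w i₂), u i₁ (ι.comp (act g a.1)) +
      ∑ b : A₂, ∑ _j : Fin (w i₁), u i₂ (ι.comp (act g b.1)) = 0
    simp only [Finset.sum_const, Finset.card_univ, Fintype.card_fin, nsmul_eq_mul]
    rw [← Finset.mul_sum, ← Finset.mul_sum, hS₁, hS₂]
    simp only [hPcc, hPc1]
    ring
  · intro hmem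
    refine trForm_coef' (fun k => σκ (e k)) ι (coef_span _ _ ?_ _ hmem)
    rintro ψ ⟨φ, hφ, hψ⟩
    choose cc hcc1 hcc2 using hφ
    rw [coef_extProd (fun k => id (T (e k))) ψ φ hψ cc hcc1]
    refine Finset.prod_eq_zero (Finset.mem_univ i₁) ?_
    by_contra hne
    have h1 := hcc2 i₁ _ hne
    have h2 : ∑ k : Fin n, (if T (e k) = i₁ then u (T (e k)) (ι.comp (σκ (e k))) else 0) = 0 := by
      rw [← Finset.sum_filter, Finset.sum_subtype (Finset.univ.filter fun k => T (e k) = i₁)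
        (p := fun k => T (e k) = i₁) (fun k => by simp)]
      exact h1
    rw [hsumκ (fun x => if T x = i₁ then u (T x) (ι.comp (σκ x)) else 0)] at h2
    have h3 : ∀ (b : A₂) (j : Fin (w i₁)), (if T (Sum.inr (b, j)) = i₁ then
        u (T (Sum.inr (b, j))) (ι.comp (σκ (Sum.inr (b, j)))) else 0) = 0 :=
      fun b j => if_neg (fun h => hi h.symm)
    have h4 : ∀ (a : A₁) (j : Fin (w i₂)), (if T (Sum.inl (a, j)) = i₁ then
        u (T (Sum.inl (a, j))) (ι.comp (σκ (Sum.inl (a, j)))) else 0) =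
        u i₁ (ι.comp (act 1 a.1)) := fun a j => if_pos rfl
    simp only [h3, h4, Finset.sum_const_zero, add_zero, Finset.sum_const, Finset.card_univ,
      Fintype.card_fin, nsmul_eq_mul] at h2
    rw [← Finset.mul_sum, hS₁] at h2
    have h5 : P 1 1 1 := fun z _ => rfl
    have h6 : ¬ P 1 1 c := fun h => hx₀c (h x₀ hx₀).symm
    rw [if_pos h5, if_neg h6] at h2
    have h7 := hw i₁
    have h8 := hw i₂
    have h9 : (w i₂ : ℤ) * (w i₁ * (1 - 0)) ≠ 0 := by positivity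
    exact h9 h2

end Pool.Agent.H485R3.Hodge
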