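import Mathlib
import Pool.Agent.H485R3.Hodge.ExoticMain

/-!
# The Kuenneth formula for Hodge classes and structures of K3 type
-/

set_option autoImplicit false

namespace Pool.Agent.H485R3.Hodge

open NumberField NumberField.IsCMField

theorem k3_kunneth {I : Type*} [Fintype I] [DecidableEq I] {E : I → Type*} [∀ i, Field (E i)]
    [∀ i, NumberField (E i)] [∀ i, IsCMField (E i)] (σ₀ : ∀ i, E i →ₐ[ℚ] ℂ) (w : I → ℕ)
    (hw : ∀ i, 0 < w i) (i₁ i₂ : I) (hne : i₁ ≠ i₂) (hI : ∀ i, i = i₁ ∨ i = i₂) :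
    (∀ z ∈ (σ₀ i₁).fieldRange ⊓ (σ₀ i₂).fieldRange, z.im = 0) ↔
    ∀ (n : ℕ) (t : Fin n → I) (φ : MultilinearMap ℚ (fun k => E (t k)) ℚ),
      IsHodgeForm (fun i => hodgeDiff (σ₀ i) (w i)) t φ →
      φ ∈ Submodule.span ℚ
        {ψ | IsExternalProductOfHodge (fun i => hodgeDiff (σ₀ i) (w i)) id t ψ} := by
  constructor
  · intro h n t φ hφ
    refine kunneth_hodge (fun i => hodgeDiff (σ₀ i) (w i))
      (fun i σ => hodgeDiff_conj (σ₀ i) (conjEmb_ne _) _ _) id ?_ t φ hφ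
    intro i z hz
    rw [IntermediateField.mem_inf] at hz
    obtain ⟨hz1, hz2⟩ := hz
    rw [fieldOf_k3 σ₀ w hw] at hz1
    rcases hI i with rfl | rfl
    · have h1 : (⨆ l ∈ {l | l ≠ i}, hullOf E id i ⊓
          fieldOf (fun i => hodgeDiff (σ₀ i) (w i)) id l) ≤ (σ₀ i₂).fieldRange := by
        refine iSup₂_le fun l hl => ?_
        rcases hI l with rfl | rfl
        · exact absurd rfl hl
        · refine le_trans inf_le_right ?_
          rw [fieldOf_k3 σ₀ w hw]
      exact h z (IntermediateField.mem_inf.2 ⟨hz1, h1 hz2⟩)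
    · have h1 : (⨆ l ∈ {l | l ≠ i}, hullOf E id i ⊓
          fieldOf (fun i => hodgeDiff (σ₀ i) (w i)) id l) ≤ (σ₀ i₁).fieldRange := by
        refine iSup₂_le fun l hl => ?_
        rcases hI l with rfl | rfl
        · refine le_trans inf_le_right ?_
          rw [fieldOf_k3 σ₀ w hw]
        · exact absurd rfl hl
      exact h z (IntermediateField.mem_inf.2 ⟨h1 hz2, hz1⟩)
  · intro h z hz
    by_contra hz0
    rw [IntermediateField.mem_inf] at hz
    obtain ⟨n, t, φ, h1, h2⟩ := exists_exotic σ₀ w hw i₁ i₂ hne z hz.1 hz.2 hz0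
    exact h2 (h n t φ h1)

end Pool.Agent.H485R3.Hodge
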