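import Mathlib
import Pool.Agent.H485R3.Hodge.KunnethK3

/-!
# The Kuenneth formula for Hodge classes: Galois fields of K3 type
-/

set_option autoImplicit false

namespace Pool.Agent.H485R3.Hodge

open NumberField NumberField.IsCMField

theorem hull_galois {I : Type*} {E : I → Type*} [∀ i, Field (E i)] [∀ i, NumberField (E i)]
    (σ₀ : ∀ i, E i →ₐ[ℚ] ℂ) (i : I) [IsGalois ℚ (E i)] : hullOf E id i ≤ (σ₀ i).fieldRange := by
  unfold hullOf
  rw [IntermediateField.adjoin_le_iff]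
  rintro x ⟨j, hj, σ, ⟨z, rfl⟩⟩
  have hj' : j = i := hj
  subst hj'
  obtain ⟨g, hg⟩ := exists_gal (σ₀ j) σ
  refine ⟨g z, ?_⟩
  have := hg z

  exact this.symm

theorem galois_kunneth {I : Type*} [Fintype I] [DecidableEq I] {E : I → Type*}
    [∀ i, Field (E i)] [∀ i, NumberField (E i)] [∀ i, IsCMField (E i)] [∀ i, IsGalois ℚ (E i)]
    (σ₀ : ∀ i, E i →ₐ[ℚ] ℂ) (w : I → ℕ) (hw : ∀ i, 0 < w i) :
    (∀ i j, i ≠ j → ∀ z ∈ (σ₀ i).fieldRange ⊓ (σ₀ j).fieldRange, z.im = 0) ↔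
    ∀ (n : ℕ) (t : Fin n → I) (φ : MultilinearMap ℚ (fun k => E (t k)) ℚ),
      IsHodgeForm (fun i => hodgeDiff (σ₀ i) (w i)) t φ →
      φ ∈ Submodule.span ℚ
        {ψ | IsExternalProductOfHodge (fun i => hodgeDiff (σ₀ i) (w i)) id t ψ} := by
  constructor
  · intro h n t φ hφ
    refine kunneth_hodge (fun i => hodgeDiff (σ₀ i) (w i))
      (fun i σ => hodgeDiff_conj (σ₀ i) (conjEmb_ne _) _ _) id ?_ t φ hφ
    intro i z hz
    rw [IntermediateField.mem_inf] at hz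
    obtain ⟨_, hz2⟩ := hz
    let R₀ : IntermediateField ℚ ℂ :=
      IntermediateField.fixedField (Subgroup.zpowers (Complex.conjAe.restrictScalars ℚ))
    have hR₀ : ∀ x, x ∈ R₀ ↔ x.im = 0 := by
      intro x
      rw [IntermediateField.mem_fixedField_iff]
      constructor
      · intro h
        exact Complex.conj_eq_iff_im.1 (h _ (Subgroup.mem_zpowers _))
      · intro hx f hf
        obtain ⟨k, rfl⟩ := hf
        have h1 : (Complex.conjAe.restrictScalars ℚ : ℂ ≃ₐ[ℚ] ℂ) x = x :=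
          Complex.conj_eq_iff_im.2 hx
        have h2 : (Complex.conjAe.restrictScalars ℚ : ℂ ≃ₐ[ℚ] ℂ) ∈
            MulAction.stabilizer (ℂ ≃ₐ[ℚ] ℂ) x := h1
        exact (MulAction.stabilizer (ℂ ≃ₐ[ℚ] ℂ) x).zpow_mem h2 k
    have h1 : (⨆ l ∈ {l | l ≠ i}, hullOf E id i ⊓
          fieldOf (fun i => hodgeDiff (σ₀ i) (w i)) id l) ≤ R₀ := by
      refine iSup₂_le fun l hl => ?_
      rw [fieldOf_k3 σ₀ w hw]
      intro x hx
      rw [IntermediateField.mem_inf] at hx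
      rw [hR₀]
      exact h i l (Ne.symm hl) x (IntermediateField.mem_inf.2 ⟨hull_galois σ₀ i hx.1, hx.2⟩)
    exact (hR₀ z).1 (h1 hz2)
  · intro h i j hij z hz
    by_contra hz0
    rw [IntermediateField.mem_inf] at hz
    obtain ⟨n, t, φ, h1, h2⟩ := exists_exotic σ₀ w hw i j hij z hz.1 hz.2 hz0
    exact h2 (h n t φ h1)

end Pool.Agent.H485R3.Hodge
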